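import Pool.Agent.RC.Reg
/-!
# ConeA: simple rational transductions
-/
namespace RCone
open List

variable {X Y : Type}

theorem ConeA_gen {W : Type} (f : W → X) (h : W → Y) :
    IsRational {p : List X × List Y | ∃ a : List W, p.1 = a.map f ∧ p.2 = a.map h} := by
  refine ⟨_, regular_forall (fun l => ∃ a : W, (some (f a), some (h a)) = l), ?_⟩
  intro u w
  constructor
  · rintro ⟨a, rfl, rfl⟩
    refine ⟨a.map fun x => (some (f x), some (h x)), ?_, ?_, ?_⟩
    · intro l hl
      obtain ⟨x, _, hx⟩ := List.mem_map.1 hl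
      exact ⟨x, hx⟩
    · simp [p1, List.filterMap_map]
    · simp [p2, List.filterMap_map]
  · rintro ⟨z, hz, rfl, rfl⟩
    have key : ∀ z : List (Option X × Option Y),
        (∀ l ∈ z, ∃ a : W, (some (f a), some (h a)) = l) →
        ∃ a : List W, z = a.map fun x => (some (f x), some (h x)) := by
      intro z
      induction z with
      | nil => intro _; exact ⟨[], rfl⟩
      | cons l z ih =>
        intro hz
        obtain ⟨a, ha⟩ := hz l (by simp)
        obtain ⟨b, hb⟩ := ih (fun l hl => hz l (by simp [hl]))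
        exact ⟨a :: b, by rw [List.map_cons, ha, hb]⟩
    obtain ⟨a, rfl⟩ := key z hz
    refine ⟨a, ?_, ?_⟩
    · simp [p1, List.filterMap_map]
    · simp [p2, List.filterMap_map]

theorem ConeA_congr {τ ρ : Set (List X × List Y)} (h : IsRational τ)
    (e : ∀ p, p ∈ τ ↔ p ∈ ρ) : IsRational ρ := by
  have : τ = ρ := Set.ext e
  exact this ▸ h

theorem IsRational.id : IsRational {p : List X × List X | p.1 = p.2} := by
  refine ConeA_congr (ConeA_gen (W := X) _root_.id _root_.id) ?_
  rintro ⟨u, w⟩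
  simp [eq_comm]

theorem IsRational.union {τ ρ : Set (List X × List Y)} (hτ : IsRational τ) (hρ : IsRational ρ) :
    IsRational (τ ∪ ρ) := by
  obtain ⟨R₁, r1, e1⟩ := hτ
  obtain ⟨R₂, r2, e2⟩ := hρ
  refine ⟨R₁ + R₂, r1.add r2, ?_⟩
  intro u w
  rw [Set.mem_union, e1, e2]
  constructor
  · rintro (⟨z, h1, h2⟩ | ⟨z, h1, h2⟩)
    · exact ⟨z, Or.inl h1, h2⟩
    · exact ⟨z, Or.inr h1, h2⟩
  · rintro ⟨z, h1 | h1, h2⟩
    · exact Or.inl ⟨z, h1, h2⟩
    · exact Or.inr ⟨z, h1, h2⟩

/-- the graph of a letter map -/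
theorem IsRational.letterMap (g : X → Y) : IsRational {p : List X × List Y | p.2 = p.1.map g} := by
  refine ConeA_congr (ConeA_gen (W := X) _root_.id g) ?_
  rintro ⟨u, w⟩
  simp

/-- the graph of a letter map, reversed -/
theorem IsRational.letterMap_inv (g : X → Y) :
    IsRational {p : List Y × List X | p.1 = p.2.map g} := by
  refine ConeA_congr (ConeA_gen (W := X) g _root_.id) ?_
  rintro ⟨u, w⟩
  constructor
  · rintro ⟨a, h1, h2⟩
    simp only [List.map_id] at h2
    subst h2
    exact h1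
  · intro h
    exact ⟨w, h, by simp⟩

end RCone
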