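import Pool.Agent.RC.Comp
import Pool.Agent.RC.ConeA
/-!
# Cone: calculus of principal cones, joins

(`im (comp) L = im ρ (im τ L)`; `left_mem_join` etc. with `letterMap_inv`, `Fin.castAdd_injective`, and for
`im_join`: `σ₁ = {(u, w) : (u.map (Fin.castAdd n), w) ∈ σ}`, a composition with the graph of a letter map.)
-/
namespace RCone
open List

variable {X Y : Type}

theorem mem_T_self {n : ℕ} (L : Language (Fin n)) : (⟨n, L⟩ : Σ n : ℕ, Language (Fin n)) ∈ T L := by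
  refine ⟨_, IsRational.id, ?_⟩
  ext w
  constructor
  · intro h
    exact ⟨w, h, rfl⟩
  · rintro ⟨u, hu, h⟩
    have h' : u = w := h
    exact h' ▸ hu

theorem T_subset {n : ℕ} {L : Language X} {K : Language (Fin n)}
    (h : (⟨n, K⟩ : Σ n : ℕ, Language (Fin n)) ∈ T L) : T K ⊆ T L := by
  obtain ⟨τ, hτ, h1⟩ := h
  rintro ⟨k, M⟩ ⟨ρ, hρ, h2⟩
  refine ⟨_, IsRational.comp hτ hρ, ?_⟩
  dsimp only at h1 h2 ⊢
  rw [h2, h1]
  ext w
  constructor
  · rintro ⟨v, ⟨u, hu, h3⟩, h4⟩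
    exact ⟨u, hu, v, h3, h4⟩
  · rintro ⟨u, hu, v, h3, h4⟩
    exact ⟨v, ⟨u, hu, h3⟩, h4⟩

/-- the join: disjoint union of the languages, on disjoint alphabets -/
def join {m n : ℕ} (B : Language (Fin m)) (L : Language (Fin n)) : Language (Fin (m + n)) :=
  {w | (∃ u ∈ B, w = u.map (Fin.castAdd n)) ∨ (∃ v ∈ L, w = v.map (Fin.natAdd m))}

/-- the graph of a reversed letter map restricted to non-empty words -/
theorem Cone_inv_ne (g : X → Y) :
    IsRational {p : List Y × List X | p.1 = p.2.map g ∧ p.2 ≠ []} := by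
  have hne : IsRational {p : List X × List X | p.1 = p.2 ∧ p.2 ≠ []} := by
    obtain ⟨R, r, e⟩ := IsRational.id (X := X)
    refine ⟨R ⊓ {z | ¬ (∀ l ∈ z, l.2 = none)}, r.inf ?_, ?_⟩
    · exact (regular_forall (α := Option X × Option X) (fun l => l.2 = none)).compl
    · intro u w
      have key : ∀ z : List (Option X × Option X), p2 z = [] ↔ ∀ l ∈ z, l.2 = none := by
        intro z
        simp [p2]
      constructor
      · rintro ⟨h1, h2⟩
        obtain ⟨z, hz, rfl, rfl⟩ := (e u w).1 h1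
        exact ⟨z, ⟨hz, fun h => h2 ((key z).2 h)⟩, rfl, rfl⟩
      · rintro ⟨z, ⟨hz, h3⟩, rfl, rfl⟩
        exact ⟨(e _ _).2 ⟨z, hz, rfl, rfl⟩, fun h => h3 ((key z).1 h)⟩
  refine ConeA_congr ((IsRational.letterMap_inv g).comp hne) ?_
  rintro ⟨u, w⟩
  constructor
  · rintro ⟨v, h1, h2, h3⟩
    dsimp only at h1 h2 h3 ⊢
    subst h2
    exact ⟨h1, h3⟩
  · rintro ⟨h1, h2⟩
    exact ⟨w, h1, rfl, h2⟩

theorem Cone_inj {Z : Type} (f : X → Z) (g : Y → Z) (hf : Function.Injective f)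
    (hfg : ∀ x y, f x ≠ g y) (J : Language Z) (B : Language X) (L : Language Y)
    (hJ : ∀ w, w ∈ J ↔ (∃ u ∈ B, w = u.map f) ∨ (∃ v ∈ L, w = v.map g)) :
    ∃ τ : Set (List Z × List X), IsRational τ ∧ B = im τ J := by
  have key : ∀ w : List X, w ≠ [] → (w.map f ∈ J ↔ w ∈ B) := by
    intro w hw
    rw [hJ]
    constructor
    · rintro (⟨u, hu, h⟩ | ⟨v, hv, h⟩)
      · have := List.map_injective_iff.2 hf h
        exact this ▸ hu
      · exfalso
        rcases w with _ | ⟨x, w⟩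
        · exact hw rfl
        · rcases v with _ | ⟨y, v⟩
          · simp at h
          · simp only [List.map_cons, List.cons.injEq] at h
            exact hfg x y h.1
    · intro h
      exact Or.inl ⟨w, h, rfl⟩
  by_cases h0 : ([] : List X) ∈ B
  · refine ⟨_, IsRational.letterMap_inv f, ?_⟩
    ext w
    constructor
    · intro h
      exact ⟨w.map f, (hJ _).2 (Or.inl ⟨w, h, rfl⟩), rfl⟩
    · rintro ⟨u, hu, h⟩
      have h' : u = w.map f := h
      subst h'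
      by_cases hw : w = []
      · exact hw ▸ h0
      · exact (key w hw).1 hu
  · refine ⟨_, Cone_inv_ne f, ?_⟩
    ext w
    constructor
    · intro h
      refine ⟨w.map f, (hJ _).2 (Or.inl ⟨w, h, rfl⟩), rfl, ?_⟩
      rintro rfl
      exact h0 h
    · rintro ⟨u, hu, h, hw⟩
      have h' : u = w.map f := h
      subst h'
      exact (key w hw).1 hu

theorem left_mem_join {m n : ℕ} (B : Language (Fin m)) (L : Language (Fin n)) :
    (⟨m, B⟩ : Σ n : ℕ, Language (Fin n)) ∈ T (join B L) := by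
  refine Cone_inj (Fin.castAdd n) (Fin.natAdd m) (Fin.castAdd_injective m n) ?_ _ B L
    (fun w => Iff.rfl)
  intro x y h
  have := congrArg Fin.val h
  simp at this
  omega

theorem right_mem_join {m n : ℕ} (B : Language (Fin m)) (L : Language (Fin n)) :
    (⟨n, L⟩ : Σ n : ℕ, Language (Fin n)) ∈ T (join B L) := by
  refine Cone_inj (Fin.natAdd m) (Fin.castAdd n) (Fin.natAdd_injective n m) ?_ _ L B
    (fun w => or_comm)
  intro x y h
  have := congrArg Fin.val h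
  simp at this
  omega

theorem join_mem {m n : ℕ} {B : Language (Fin m)} {L : Language (Fin n)} {A : Language X}
    (hB : (⟨m, B⟩ : Σ n : ℕ, Language (Fin n)) ∈ T A)
    (hL : (⟨n, L⟩ : Σ n : ℕ, Language (Fin n)) ∈ T A) :
    (⟨m + n, join B L⟩ : Σ n : ℕ, Language (Fin n)) ∈ T A := by
  obtain ⟨τ, hτ, h1⟩ := hB
  obtain ⟨ρ, hρ, h2⟩ := hL
  dsimp only at h1 h2
  refine ⟨_, (hτ.comp (IsRational.letterMap (Fin.castAdd n))).union
    (hρ.comp (IsRational.letterMap (Fin.natAdd m))), ?_⟩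
  dsimp only
  rw [h1, h2]
  ext w
  constructor
  · rintro (⟨v, ⟨u, hu, h3⟩, h4⟩ | ⟨v, ⟨u, hu, h3⟩, h4⟩)
    · exact ⟨u, hu, Or.inl ⟨v, h3, h4⟩⟩
    · exact ⟨u, hu, Or.inr ⟨v, h3, h4⟩⟩
  · rintro ⟨u, hu, ⟨v, h3, h4⟩ | ⟨v, h3, h4⟩⟩
    · exact Or.inl ⟨v, ⟨u, hu, h3⟩, h4⟩
    · exact Or.inr ⟨v, ⟨u, hu, h3⟩, h4⟩

theorem im_join {m n : ℕ} (B : Language (Fin m)) (L : Language (Fin n))
    {σ : Set (List (Fin (m + n)) × List Y)} (hσ : IsRational σ) :
    ∃ (σ₁ : Set (List (Fin m) × List Y)) (σ₂ : Set (List (Fin n) × List Y)),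
      IsRational σ₁ ∧ IsRational σ₂ ∧
      ∀ w, w ∈ im σ (join B L) ↔ w ∈ im σ₁ B ∨ w ∈ im σ₂ L := by
  refine ⟨_, _, (IsRational.letterMap (Fin.castAdd n)).comp hσ,
    (IsRational.letterMap (Fin.natAdd m)).comp hσ, ?_⟩
  intro w
  constructor
  · rintro ⟨u, ⟨v, hv, rfl⟩ | ⟨v, hv, rfl⟩, h⟩
    · exact Or.inl ⟨v, hv, v.map (Fin.castAdd n), rfl, h⟩
    · exact Or.inr ⟨v, hv, v.map (Fin.natAdd m), rfl, h⟩
  · rintro (⟨v, hv, u, h1, h2⟩ | ⟨v, hv, u, h1, h2⟩)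
    · exact ⟨u, Or.inl ⟨v, hv, h1⟩, h2⟩
    · exact ⟨u, Or.inr ⟨v, hv, h1⟩, h2⟩

end RCone
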