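import Pool.Agent.RC.Words
/-!
# RegB: images under letter maps, inverse images under `filterMap`, letterwise conditions
-/
namespace RCone
open List

variable {α β : Type}

theorem regular_singleton (w : List α) : ({w} : Language α).IsRegular := by
  classical
  rw [Language.isRegular_iff_finite_range_leftQuotient]
  refine Set.Finite.subset (s := insert (∅ : Set (List α)) ((fun n => ({w.drop n} : Set (List α))) ''
    (Finset.range (w.length + 1) : Set ℕ))) ?_ ?_
  · exact (Set.Finite.image _ (Finset.finite_toSet _)).insert _
  · rintro _ ⟨x, rfl⟩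
    by_cases hx : x <+: w
    · right
      refine ⟨x.length, by simp; exact hx.length_le, ?_⟩
      obtain ⟨y, rfl⟩ := hx
      ext z
      simp only [List.drop_left, Set.mem_singleton_iff]
      show z = y ↔ x ++ z ∈ ({x ++ y} : Set (List α))
      simp
    · left
      ext z
      constructor
      · intro h
        exfalso
        apply hx
        have h' : x ++ z ∈ ({w} : Set (List α)) := h
        exact ⟨z, by simpa using h'⟩
      · intro h
        exact absurd h (by simp)

theorem regular_map (g : α → β) {L : Language α} (h : L.IsRegular) :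
    Language.IsRegular (T := β) {w | ∃ z ∈ L, z.map g = w} := by
  obtain ⟨σ, _, M, rfl⟩ := h
  let N : NFA β σ := ⟨fun s b => {t | ∃ a, g a = b ∧ M.step s a = t}, {M.start}, M.accept⟩
  have key : ∀ (w : List β) (s t : σ), t ∈ N.evalFrom {s} w ↔ ∃ z : List α, z.map g = w ∧ M.evalFrom s z = t := by
    intro w
    induction w with
    | nil =>
      intro s t
      simp [eq_comm]
    | cons b w ih =>
      intro s t
      rw [NFA.evalFrom_cons, NFA.stepSet_singleton, NFA.mem_evalFrom_iff_exists]
      constructor
      · rintro ⟨s', ⟨a, rfl, rfl⟩, hs'⟩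
        obtain ⟨z, rfl, rfl⟩ := (ih _ _).1 hs'
        exact ⟨a :: z, rfl, rfl⟩
      · rintro ⟨z, hz, rfl⟩
        cases z with
        | nil => simp at hz
        | cons a z =>
          rw [List.map_cons, List.cons.injEq] at hz
          obtain ⟨rfl, rfl⟩ := hz
          exact ⟨M.step s a, ⟨a, rfl, rfl⟩, (ih _ _).2 ⟨z, rfl, rfl⟩⟩
  refine ⟨Set σ, inferInstance, N.toDFA, ?_⟩
  rw [NFA.toDFA_correct]
  ext w
  rw [NFA.mem_accepts]
  constructor
  · rintro ⟨s, hs, hs'⟩
    obtain ⟨z, rfl, rfl⟩ := (key _ _ _).1 hs'
    exact ⟨z, hs, rfl⟩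
  · rintro ⟨z, hz, rfl⟩
    exact ⟨M.evalFrom M.start z, hz, (key _ _ _).2 ⟨z, rfl, rfl⟩⟩

theorem regular_preimage (f : α → Option β) {L : Language β} (h : L.IsRegular) :
    Language.IsRegular (T := α) {z | z.filterMap f ∈ L} := by
  obtain ⟨σ, _, M, rfl⟩ := h
  let N : DFA α σ := ⟨fun s a => match f a with | none => s | some b => M.step s b, M.start, M.accept⟩
  have key : ∀ (z : List α) (s : σ), N.evalFrom s z = M.evalFrom s (z.filterMap f) := by
    intro z
    induction z with
    | nil => intro s; rfl
    | cons a z ih =>
      intro s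
      rw [DFA.evalFrom_cons, ih]
      show M.evalFrom (match f a with | none => s | some b => M.step s b) _ = _
      cases hf : f a with
      | none => simp [hf]
      | some b => simp [hf]
  refine ⟨σ, inferInstance, N, ?_⟩
  ext z
  rw [DFA.mem_accepts]
  show N.evalFrom M.start z ∈ M.accept ↔ _
  rw [key]
  rfl

theorem regular_forall (P : α → Prop) : Language.IsRegular (T := α) {z | ∀ a ∈ z, P a} := by
  classical
  let N : DFA α Bool := ⟨fun s a => s && decide (P a), true, {true}⟩
  have key : ∀ (z : List α) (s : Bool), N.evalFrom s z = (s && decide (∀ a ∈ z, P a)) := by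
    intro z
    induction z with
    | nil => intro s; simp
    | cons a z ih =>
      intro s
      rw [DFA.evalFrom_cons, ih]
      show ((s && decide (P a)) && _) = _
      by_cases h : P a <;> cases s <;> simp [h]
  refine ⟨Bool, inferInstance, N, ?_⟩
  ext z
  rw [DFA.mem_accepts]
  show N.evalFrom true z ∈ ({true} : Set Bool) ↔ _
  rw [key]
  simp only [Bool.true_and, Set.mem_singleton_iff, decide_eq_true_eq]
  rfl

end RCone
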