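import Pool.Agent.RC.Reg
/-!
# Pattern: a two-loop pattern generates `Sne`

`τ = {(U0 u^{t1} U1 v^{t2} U2, 0^{t1} 1^{t2})}`: the regular language of all
`expand A B t 2`, `A 0 = lift U0`, `B 0 = lift u ++ [(none, some 0)]`, `A 1 = lift U1`,
`B 1 = lift v ++ [(none, some 1)]`, `A 2 = lift U2`, `lift w = w.map (fun a => (some a, none))`.
-/
namespace RCone
open List

/-- words with empty second component -/
def Pattern_lift {Y : Type} (w : List Y) : List (Option Y × Option (Fin 2)) :=
  w.map (fun a => (some a, none))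

theorem Pattern_p1 {Y : Type} (w : List Y) : p1 (Pattern_lift w) = w := by
  induction w with
  | nil => rfl
  | cons a w ih =>
    exact congrArg (fun l => a :: l) ih

theorem Pattern_p2 {Y : Type} (w : List Y) : p2 (Pattern_lift w) = [] := by
  induction w with
  | nil => rfl
  | cons a w ih =>
    exact ih

/-- the connecting words -/
def Pattern_A {Y : Type} (U0 U1 U2 : List Y) : ℕ → List (Option Y × Option (Fin 2)) :=
  fun i => if i = 0 then Pattern_lift U0 else if i = 1 then Pattern_lift U1 else Pattern_lift U2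

/-- the loops -/
def Pattern_B {Y : Type} (u v : List Y) : ℕ → List (Option Y × Option (Fin 2)) :=
  fun i => if i = 0 then Pattern_lift u ++ [(none, some 0)]
    else Pattern_lift v ++ [(none, some 1)]

theorem Pattern_e1 {Y : Type} (U0 u U1 v U2 : List Y) (t : ℕ → ℕ) :
    p1 (expand (Pattern_A U0 U1 U2) (Pattern_B u v) t 2) =
      U0 ++ rep u (t 0) ++ U1 ++ rep v (t 1) ++ U2 := by
  rw [p1_expand]
  have hu : ∀ (w : List Y) (x : Fin 2), p1 (Pattern_lift w ++ [(none, some x)]) = w := by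
    intro w x
    rw [p1_append, Pattern_p1]
    exact List.append_nil w
  simp only [expand, Pattern_A, Pattern_B, if_true, if_false, one_ne_zero, OfNat.ofNat_ne_zero,
    OfNat.ofNat_ne_one, Nat.reduceAdd, hu, Pattern_p1, zero_add]

theorem Pattern_e2 {Y : Type} (U0 u U1 v U2 : List Y) (t : ℕ → ℕ) :
    p2 (expand (Pattern_A U0 U1 U2) (Pattern_B u v) t 2) =
      List.replicate (t 0) 0 ++ List.replicate (t 1) 1 := by
  rw [p2_expand]
  have hu : ∀ (w : List Y) (x : Fin 2), p2 (Pattern_lift w ++ [(none, some x)]) = [x] := by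
    intro w x
    rw [p2_append, Pattern_p2]
    rfl
  simp only [expand, Pattern_A, Pattern_B, if_true, if_false, one_ne_zero, OfNat.ofNat_ne_zero,
    OfNat.ofNat_ne_one, Nat.reduceAdd, hu, Pattern_p2, zero_add,
    rep_singleton, List.append_nil, List.nil_append]

theorem pattern {Y : Type} (B : Language Y) (U0 u U1 v U2 : List Y)
    (h : ∀ t1 t2 : ℕ, (U0 ++ rep u t1 ++ U1 ++ rep v t2 ++ U2) ∈ B ↔ t1 ≠ t2) :
    ∃ τ : Set (List Y × List (Fin 2)), IsRational τ ∧ im τ B = Sne := by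
  refine ⟨{q | ∃ z ∈ ({z | ∃ t : ℕ → ℕ, z = expand (Pattern_A U0 U1 U2) (Pattern_B u v) t 2} :
    Language (Option Y × Option (Fin 2))), p1 z = q.1 ∧ p2 z = q.2},
    ⟨_, regular_expand (Pattern_A U0 U1 U2) (Pattern_B u v) 2, fun a b => Iff.rfl⟩, ?_⟩
  ext w
  constructor
  · rintro ⟨x, hx, z, ⟨t, rfl⟩, h1, h2⟩
    refine ⟨t 0, t 1, ?_, ?_⟩
    · rw [← h, ← Pattern_e1]
      have h1' : p1 (expand (Pattern_A U0 U1 U2) (Pattern_B u v) t 2) = x := h1
      rw [h1']
      exact hx
    · rw [← Pattern_e2 U0 u U1 v U2]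
      exact h2.symm
  · rintro ⟨m, n, hmn, rfl⟩
    refine ⟨U0 ++ rep u m ++ U1 ++ rep v n ++ U2, (h m n).2 hmn,
      _, ⟨fun i => if i = 0 then m else n, rfl⟩, ?_, ?_⟩
    · exact Pattern_e1 U0 u U1 v U2 _
    · exact Pattern_e2 U0 u U1 v U2 _

end RCone
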