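import Pool.Agent.RC.Defs
/-!
# Words: lemmas on `rep`, `expand`, `p1`, `p2`, `wt`
All are routine inductions.
-/
namespace RCone
open List

variable {α β : Type}

@[simp] theorem rep_zero (u : List α) : rep u 0 = [] := by simp [rep]

theorem rep_succ (u : List α) (n : ℕ) : rep u (n + 1) = u ++ rep u n := by
  simp [rep, List.replicate_succ]

theorem rep_add (u : List α) (m n : ℕ) : rep u (m + n) = rep u m ++ rep u n := by
  rw [rep, List.replicate_add, List.flatten_append]; rfl

theorem rep_succ' (u : List α) (n : ℕ) : rep u (n + 1) = rep u n ++ u := by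
  rw [rep_add]; simp [rep]

theorem rep_rep (u : List α) (m n : ℕ) : rep (rep u m) n = rep u (m * n) := by
  induction n with
  | zero => simp
  | succ n ih => rw [rep_succ', ih, Nat.mul_succ, rep_add]

theorem filterMap_rep (f : α → Option β) (u : List α) (n : ℕ) :
    (rep u n).filterMap f = rep (u.filterMap f) n := by
  induction n with
  | zero => simp
  | succ n ih => rw [rep_succ, rep_succ, List.filterMap_append, ih]

theorem rep_singleton (a : α) (n : ℕ) : rep [a] n = List.replicate n a := by
  induction n with
  | zero => simp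
  | succ n ih => rw [rep_succ, ih, List.replicate_succ]; rfl

@[simp] theorem rep_nil (n : ℕ) : rep ([] : List α) n = [] := by
  induction n with
  | zero => simp
  | succ n ih => rw [rep_succ, ih]; rfl

theorem mem_of_mem_rep {u : List α} {n : ℕ} {a : α} (h : a ∈ rep u n) : a ∈ u := by
  induction n with
  | zero => simp at h
  | succ n ih =>
    rw [rep_succ, List.mem_append] at h
    exact h.elim id ih

theorem expand_congr {X X' Y Y' : ℕ → List α} {m m' : ℕ → ℕ} {n : ℕ}
    (hX : ∀ i ≤ n, X i = X' i) (hY : ∀ i < n, Y i = Y' i) (hm : ∀ i < n, m i = m' i) :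
    expand X Y m n = expand X' Y' m' n := by
  induction n with
  | zero => exact hX 0 le_rfl
  | succ n ih =>
    rw [expand, expand, ih (fun i hi => hX i (by omega)) (fun i hi => hY i (by omega))
      (fun i hi => hm i (by omega)), hX (n + 1) le_rfl, hY n (by omega), hm n (by omega)]

theorem filterMap_expand (f : α → Option β) (X Y : ℕ → List α) (m : ℕ → ℕ) (n : ℕ) :
    (expand X Y m n).filterMap f
      = expand (fun i => (X i).filterMap f) (fun i => (Y i).filterMap f) m n := by
  induction n with
  | zero => rfl
  | succ n ih =>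
    rw [expand, expand, List.filterMap_append, List.filterMap_append, ih, filterMap_rep]

theorem expand_last (X Y : ℕ → List α) (m : ℕ → ℕ) (n : ℕ) (u : List α) :
    expand (fun i => if i = n then X n ++ u else X i) Y m n = expand X Y m n ++ u := by
  cases n with
  | zero => simp [expand]
  | succ n =>
    rw [expand, expand]
    rw [expand_congr (X' := X) (Y' := Y) (m' := m) (fun i hi => by
      have : i ≠ n + 1 := by omega
      simp [this]) (fun i _ => rfl) (fun i _ => rfl)]
    simp

theorem expand_rep (X Y : ℕ → List α) (c m : ℕ → ℕ) (n : ℕ) :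
    expand X (fun i => rep (Y i) (c i)) m n = expand X Y (fun i => c i * m i) n := by
  induction n with
  | zero => rfl
  | succ n ih => rw [expand, expand, ih, rep_rep]

/-- glueing two patterns -/
def glX (X X' : ℕ → List α) (g : ℕ) : ℕ → List α :=
  fun i => if i < g then X i else if i = g then X g ++ X' 0 else X' (i - g)
def glY (Y Y' : ℕ → List α) (g : ℕ) : ℕ → List α := fun i => if i < g then Y i else Y' (i - g)
def glm (m m' : ℕ → ℕ) (g : ℕ) : ℕ → ℕ := fun i => if i < g then m i else m' (i - g)

theorem expand_glue (X Y X' Y' : ℕ → List α) (m m' : ℕ → ℕ) (g r : ℕ) :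
    expand (glX X X' g) (glY Y Y' g) (glm m m' g) (g + r)
      = expand X Y m g ++ expand X' Y' m' r := by
  induction r with
  | zero =>
    have h1 : expand (glX X X' g) (glY Y Y' g) (glm m m' g) (g + 0)
        = expand (fun i => if i = g then X g ++ X' 0 else X i) Y m g := by
      refine expand_congr (fun i hi => ?_) (fun i hi => ?_) (fun i hi => ?_)
      · rcases Nat.lt_or_ge i g with h | h
        · have : i ≠ g := by omega
          simp [glX, h, this]
        · have : i = g := by omega
          subst this; simp [glX]
      · simp only [Nat.add_zero] at hi; simp [glY, hi]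
      · simp only [Nat.add_zero] at hi; simp [glm, hi]
    rw [h1, expand_last]; rfl
  | succ r ih =>
    rw [← Nat.add_assoc, expand, ih, expand]
    have h1 : glX X X' g (g + r + 1) = X' (r + 1) := by
      have a : ¬ (g + r + 1 < g) := by omega
      have b : ¬ (g + r + 1 = g) := by omega
      have d : g + r + 1 - g = r + 1 := by omega
      simp only [glX, a, b, d, if_false]
    have h2 : glY Y Y' g (g + r) = Y' r := by
      have a : ¬ (g + r < g) := by omega
      have d : g + r - g = r := by omega
      simp only [glY, a, d, if_false]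
    have h3 : glm m m' g (g + r) = m' r := by
      have a : ¬ (g + r < g) := by omega
      have d : g + r - g = r := by omega
      simp only [glm, a, d, if_false]
    rw [h1, h2, h3]; simp only [List.append_assoc]

/-- cutting a pattern -/
theorem expand_split (x y : ℕ → List α) (t : ℕ → ℕ) (g r : ℕ) :
    expand x y t (g + r) = expand x y t g ++
      expand (fun i => if i = 0 then [] else x (g + i)) (fun i => y (g + i)) (fun i => t (g + i)) r := by
  induction r with
  | zero => simp [expand]
  | succ r ih =>
    rw [← Nat.add_assoc, expand, ih, expand]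
    simp [Nat.add_assoc]

/-- one of the exponents varies -/
theorem expand_one (x y : ℕ → List α) (t : ℕ → ℕ) {i k : ℕ} (hik : i < k) :
    ∃ U0 U1 : List α, ∀ t1 : ℕ,
      expand x y (fun l => t l + (if l = i then t1 else 0)) k = U0 ++ rep (y i) t1 ++ U1 := by
  refine ⟨expand x y t i ++ rep (y i) (t i), expand (fun l => if l = 0 then x (i + 1) else x (i + 1 + l))
    (fun l => y (i + 1 + l)) (fun l => t (i + 1 + l)) (k - (i + 1)), fun t1 => ?_⟩
  obtain ⟨r, rfl⟩ : ∃ r, k = (i + 1) + r := ⟨k - (i + 1), by omega⟩
  rw [expand_split]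
  rw [expand]
  have h1 : expand x y (fun l => t l + (if l = i then t1 else 0)) i = expand x y t i :=
    expand_congr (fun _ _ => rfl) (fun _ _ => rfl) (fun l hl => by
      have : l ≠ i := by omega
      simp [this])
  have h2 : i + 1 + r - (i + 1) = r := by omega
  have h3 : x (i + 1) ++ expand (fun l => if l = 0 then [] else x (i + 1 + l)) (fun l => y (i + 1 + l))
      (fun l => t (i + 1 + l) + (if i + 1 + l = i then t1 else 0)) r
      = expand (fun l => if l = 0 then x (i + 1) else x (i + 1 + l))
    (fun l => y (i + 1 + l)) (fun l => t (i + 1 + l)) r := by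
    have : ∀ r, x (i + 1) ++ expand (fun l => if l = 0 then [] else x (i + 1 + l))
        (fun l => y (i + 1 + l)) (fun l => t (i + 1 + l) + (if i + 1 + l = i then t1 else 0)) r
      = expand (fun l => if l = 0 then x (i + 1) else x (i + 1 + l))
        (fun l => y (i + 1 + l)) (fun l => t (i + 1 + l)) r := by
      intro r
      induction r with
      | zero => simp [expand]
      | succ r ih =>
        rw [expand, expand, ← ih]
        have : ¬ (i + 1 + r = i) := by omega
        simp [this]
    exact this r
  rw [h1, h2, ← h3]
  simp [rep_add]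

/-- two of the exponents vary -/
theorem expand_two (x y : ℕ → List α) (t : ℕ → ℕ) {i j k : ℕ} (hij : i < j) (hjk : j < k) :
    ∃ U0 U1 U2 : List α, ∀ t1 t2 : ℕ,
      expand x y (fun l => t l + (if l = i then t1 else 0) + (if l = j then t2 else 0)) k
        = U0 ++ rep (y i) t1 ++ U1 ++ rep (y j) t2 ++ U2 := by
  obtain ⟨r, rfl⟩ : ∃ r, k = j + r := ⟨k - j, by omega⟩
  obtain ⟨A0, A1, hA⟩ := expand_one x y t hij
  obtain ⟨B0, B1, hB⟩ := expand_one (fun l => if l = 0 then [] else x (j + l)) (fun l => y (j + l))
    (fun l => t (j + l)) (i := 0) (k := r) (by omega)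
  refine ⟨A0, A1 ++ B0, B1, fun t1 t2 => ?_⟩
  rw [expand_split]
  have h1 : expand x y (fun l => t l + (if l = i then t1 else 0) + (if l = j then t2 else 0)) j
      = expand x y (fun l => t l + (if l = i then t1 else 0)) j :=
    expand_congr (fun _ _ => rfl) (fun _ _ => rfl) (fun l hl => by
      have : l ≠ j := by omega
      simp [this])
  have h2 : expand (fun l => if l = 0 then [] else x (j + l)) (fun l => y (j + l))
      (fun l => t (j + l) + (if j + l = i then t1 else 0) + (if j + l = j then t2 else 0)) r
      = expand (fun l => if l = 0 then [] else x (j + l)) (fun l => y (j + l))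
      (fun l => t (j + l) + (if l = 0 then t2 else 0)) r :=
    expand_congr (fun _ _ => rfl) (fun _ _ => rfl) (fun l hl => by
      have h1 : j + l ≠ i := by omega
      simp [h1])
  rw [h1, h2, hA, hB]
  simp [List.append_assoc]

/-- two of the loops, in their order -/
theorem expand_order (X Y : ℕ → List α) (m : ℕ → ℕ) {i j k : ℕ} (hij : i < j) (hjk : j < k)
    (hi : 1 ≤ m i) (hj : 1 ≤ m j) :
    ∃ A B C : List α, expand X Y m k = A ++ Y i ++ B ++ Y j ++ C := by
  obtain ⟨U0, U1, U2, h⟩ := expand_two X Y
    (fun l => m l - (if l = i then 1 else 0) - (if l = j then 1 else 0)) hij hjk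
  refine ⟨U0, U1, U2, ?_⟩
  have h1 := h 1 1
  rw [show rep (Y i) 1 = Y i by simp [rep], show rep (Y j) 1 = Y j by simp [rep]] at h1
  rw [← h1]
  refine expand_congr (fun _ _ => rfl) (fun _ _ => rfl) (fun l hl => ?_)
  by_cases h2 : l = i
  · subst h2
    have : l ≠ j := by omega
    simp [this]; omega
  · by_cases h3 : l = j
    · subst h3
      simp [h2]; omega
    · simp [h2, h3]

section
variable {X Y : Type}

@[simp] theorem p1_append (u v : List (Option X × Option Y)) : p1 (u ++ v) = p1 u ++ p1 v := by
  simp [p1]
@[simp] theorem p2_append (u v : List (Option X × Option Y)) : p2 (u ++ v) = p2 u ++ p2 v := by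
  simp [p2]
theorem p1_rep (u : List (Option X × Option Y)) (n : ℕ) : p1 (rep u n) = rep (p1 u) n :=
  filterMap_rep _ _ _
theorem p2_rep (u : List (Option X × Option Y)) (n : ℕ) : p2 (rep u n) = rep (p2 u) n :=
  filterMap_rep _ _ _
theorem p1_expand (U V : ℕ → List (Option X × Option Y)) (m : ℕ → ℕ) (n : ℕ) :
    p1 (expand U V m n) = expand (fun i => p1 (U i)) (fun i => p1 (V i)) m n :=
  filterMap_expand _ _ _ _ _
theorem p2_expand (U V : ℕ → List (Option X × Option Y)) (m : ℕ → ℕ) (n : ℕ) :
    p2 (expand U V m n) = expand (fun i => p2 (U i)) (fun i => p2 (V i)) m n :=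
  filterMap_expand _ _ _ _ _
end

theorem wt_append {Y : Type} (u v : List (Option (Fin 2) × Option Y)) :
    wt (u ++ v) = wt u + wt v := by
  simp [wt]; ring

theorem wt_rep {Y : Type} (u : List (Option (Fin 2) × Option Y)) (n : ℕ) :
    wt (rep u n) = n * wt u := by
  induction n with
  | zero => simp [wt, p1]
  | succ n ih => rw [rep_succ, wt_append, ih]; push_cast; ring

theorem wt_expand {Y : Type} (U V : ℕ → List (Option (Fin 2) × Option Y)) (m : ℕ → ℕ) (n : ℕ) :
    wt (expand U V m n) = wt (expand U V 0 n) + ∑ i ∈ Finset.range n, (m i : ℤ) * wt (V i) := by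
  induction n with
  | zero => simp [expand]
  | succ n ih =>
    rw [expand, expand, wt_append, wt_append, wt_append, wt_append, ih, wt_rep, wt_rep,
      Finset.sum_range_succ]
    simp
    ring

end RCone
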