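import Pool.Agent.RC.Words

/-!
# Blk: words `a_0^{t_0} ⋯ a_{k-1}^{t_{k-1}}`
-/

namespace RCone
open List

theorem blk_succ {A : Type} (a : ℕ → A) (t : ℕ → ℕ) (m : ℕ) :
    blk a t (m + 1) = blk a t m ++ List.replicate (t m) (a m) := by
  simp [blk, expand, rep_singleton]

theorem blk_zero {A : Type} (a : ℕ → A) (t : ℕ → ℕ) : blk a t 0 = [] := rfl

theorem blk_two (a : ℕ → Fin 2) (n : ℕ → ℕ) :
    blk a n 2 = List.replicate (n 0) (a 0) ++ List.replicate (n 1) (a 1) := by
  rw [blk_succ, blk_succ, blk_zero, List.nil_append]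

theorem Blk_ltr (k : ℕ) [NeZero k] {i : ℕ} (hi : i < k) : (ltr k i : ℕ) = i := by
  simp [ltr, Fin.ofNat, Nat.mod_eq_of_lt hi]

theorem Blk_ltr_inj (k : ℕ) [NeZero k] {i j : ℕ} (hi : i < k) (hj : j < k)
    (h : ltr k i = ltr k j) : i = j := by
  rw [← Blk_ltr k hi, ← Blk_ltr k hj, h]

theorem Blk_count (k : ℕ) [NeZero k] (t : ℕ → ℕ) (j : ℕ) (hj : j < k) (m : ℕ) (hm : m ≤ k) :
    (blk (ltr k) t m).count (ltr k j) = if j < m then t j else 0 := by
  induction m with
  | zero => simp [blk_zero]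
  | succ m ih =>
    rw [blk_succ, List.count_append, ih (by omega)]
    by_cases hmj : m = j
    · subst hmj
      simp
    · have h1 : ltr k m ≠ ltr k j := fun h => hmj (Blk_ltr_inj k (by omega) hj h)
      have h2 : (List.replicate (t m) (ltr k m)).count (ltr k j) = 0 := by
        rw [List.count_replicate]
        simp [h1]
      rw [h2, add_zero]
      have h3 : (j < m + 1) ↔ (j < m) := by omega
      simp only [h3]

theorem blk_count (k : ℕ) [NeZero k] (t : ℕ → ℕ) (j : ℕ) (hj : j < k) :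
    (blk (ltr k) t k).count (ltr k j) = t j := by
  rw [Blk_count k t j hj k le_rfl, if_pos hj]

/-- the exponents of a word `blk (ltr k) t k` are determined by the word -/
theorem blk_inj (k : ℕ) [NeZero k] {t t' : ℕ → ℕ} (h : blk (ltr k) t k = blk (ltr k) t' k) :
    ∀ i < k, t i = t' i := by
  intro i hi
  rw [← blk_count k t i hi, ← blk_count k t' i hi, h]

theorem Blk_sorted (k : ℕ) [NeZero k] (t : ℕ → ℕ) (m : ℕ) (hm : m ≤ k) :
    (blk (ltr k) t m).Pairwise (· ≤ ·) ∧ ∀ x ∈ blk (ltr k) t m, (x : ℕ) < m := by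
  induction m with
  | zero => simp [blk_zero]
  | succ m ih =>
    obtain ⟨h1, h2⟩ := ih (by omega)
    rw [blk_succ]
    refine ⟨?_, ?_⟩
    · rw [List.pairwise_append]
      refine ⟨h1, ?_, ?_⟩
      · exact List.pairwise_replicate.2 (Or.inr le_rfl)
      · intro x hx y hy
        rw [List.eq_of_mem_replicate hy, Fin.le_def, Blk_ltr k (by omega)]
        exact (h2 x hx).le
    · intro x hx
      rcases List.mem_append.1 hx with h | h
      · exact (h2 x h).trans (Nat.lt_succ_self m)
      · rw [List.eq_of_mem_replicate h, Blk_ltr k (by omega)]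
        exact Nat.lt_succ_self m

theorem Blk_ltr_val (k : ℕ) [NeZero k] (x : Fin k) : ltr k x.1 = x := by
  apply Fin.ext
  rw [Blk_ltr k x.2]

/-- (`blk (ltr k) t k` is sorted) a factor which is a square is a power of a letter -/
theorem blk_square (k : ℕ) [NeZero k] {t : ℕ → ℕ} {A u C : List (Fin k)}
    (h : A ++ u ++ u ++ C = blk (ltr k) t k) : ∃ i < k, ∃ p : ℕ, u = List.replicate p (ltr k i) := by
  have h1 := (Blk_sorted k t k le_rfl).1
  rw [← h] at h1
  have h2 := (List.pairwise_append.1 h1).1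
  have h3 := (List.pairwise_append.1 h2).2.2
  rcases u with _ | ⟨x, u'⟩
  · exact ⟨0, Nat.pos_of_ne_zero (NeZero.ne k), 0, rfl⟩
  · refine ⟨x.1, x.2, (x :: u').length, ?_⟩
    rw [Blk_ltr_val]
    apply List.eq_replicate_of_mem
    intro y hy
    apply le_antisymm
    · exact h3 y (List.mem_append_right _ hy) x (List.mem_cons_self)
    · exact h3 x (List.mem_append_right _ (List.mem_cons_self)) y hy

/-- a sublist of a word `blk (ltr k) t k` is of this form -/
theorem blk_sublist (k : ℕ) [NeZero k] {t : ℕ → ℕ} {w : List (Fin k)}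
    (h : w <+ blk (ltr k) t k) : ∃ t' : ℕ → ℕ, w = blk (ltr k) t' k := by
  refine ⟨fun i => w.count (ltr k i), ?_⟩
  have h1 : w.Pairwise (· ≤ ·) := (Blk_sorted k t k le_rfl).1.sublist h
  have h2 := (Blk_sorted k (fun i => w.count (ltr k i)) k le_rfl).1
  refine List.Perm.eq_of_pairwise ?_ h1 h2 ?_
  · intro a b _ _ hab hba
    exact le_antisymm hab hba
  · rw [List.perm_iff_count]
    intro x
    have h3 := blk_count k (fun i => w.count (ltr k i)) x.1 x.2
    rw [Blk_ltr_val] at h3
    rw [h3]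

end RCone
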