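import Pool.Agent.RC.Words
/-!
# Skel: loops and skeletons

`loop`: cut a prefix of `z` into `N` consecutive factors, each with projection `y`; among the `N + 1`
states reached two are equal, at positions `i < j`; the factor between them has projection
`y^(j-i)`; repeat it `N ! / (j - i)` times.

`skel`: induction on `n`, splitting `z = z₁ ++ z₂ ++ z₃` (`List.filterMap_eq_append_iff`) and applying
`loop` to `z₂`; `expand_last` to append to the last `X`.
-/
namespace RCone
open List

variable {α β σ : Type}

/-- prefixes with projections `y^i` -/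
theorem prefixes (f : α → Option β) (y : List β) :
    ∀ (e : ℕ) (z : List α), z.filterMap f = rep y e →
    ∃ P : ℕ → List α, (∀ i ≤ e, (P i).filterMap f = rep y i) ∧
      (∀ i j, i ≤ j → j ≤ e → ∃ u, P j = P i ++ u ∧ u.filterMap f = rep y (j - i)) ∧
      (∀ i ≤ e, ∃ u, z = P i ++ u) := by
  intro e
  induction e with
  | zero =>
    intro z hz
    refine ⟨fun _ => [], fun i hi => ?_, fun i j hij hj => ?_, fun i hi => ⟨z, by simp⟩⟩
    · obtain rfl : i = 0 := by omega
      simp
    · obtain rfl : j = 0 := by omega
      obtain rfl : i = 0 := by omega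
      exact ⟨[], by simp⟩
  | succ e ih =>
    intro z hz
    rw [rep_succ'] at hz
    obtain ⟨z1, z2, rfl, h1, h2⟩ := List.filterMap_eq_append_iff.1 hz
    obtain ⟨P, hP1, hP2, hP3⟩ := ih z1 h1
    refine ⟨fun i => if i ≤ e then P i else z1 ++ z2, fun i hi => ?_, fun i j hij hj => ?_,
      fun i hi => ?_⟩
    · by_cases h : i ≤ e
      · simp only [h, if_true]; exact hP1 i h
      · obtain rfl : i = e + 1 := by omega
        simp only [h, if_false]; rw [hz, rep_succ']
    · by_cases h : j ≤ e
      · have h' : i ≤ e := by omega
        simp only [h, h', if_true]; exact hP2 i j hij h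
      · obtain rfl : j = e + 1 := by omega
        by_cases h' : i ≤ e
        · simp only [h, h', if_true, if_false]
          obtain ⟨u, hu⟩ := hP3 i h'
          refine ⟨u ++ z2, by rw [hu, List.append_assoc], ?_⟩
          have h3 : (P i).filterMap f ++ u.filterMap f = rep y i ++ rep y (e - i) := by
            rw [← List.filterMap_append, ← hu, h1, ← rep_add]; congr 1; omega
          rw [hP1 i h'] at h3
          rw [List.filterMap_append, List.append_cancel_left h3, h2, ← rep_succ']
          congr 1; omega
        · obtain rfl : i = e + 1 := by omega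
          simp only [h, if_false]
          exact ⟨[], by simp, by simp⟩
    · by_cases h : i ≤ e
      · simp only [h, if_true]
        obtain ⟨u, hu⟩ := hP3 i h
        exact ⟨u ++ z2, by rw [hu, List.append_assoc]⟩
      · simp only [h, if_false]; exact ⟨[], by simp⟩

theorem evalFrom_append (M : DFA α σ) (s : σ) (u v : List α) :
    M.evalFrom s (u ++ v) = M.evalFrom (M.evalFrom s u) v := by
  simp [DFA.evalFrom]

theorem evalFrom_rep (M : DFA α σ) {s : σ} {u : List α} (h : M.evalFrom s u = s) (n : ℕ) :
    M.evalFrom s (rep u n) = s := by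
  induction n with
  | zero => simp
  | succ n ih => rw [rep_succ, evalFrom_append, h, ih]

theorem loop [Fintype σ] (M : DFA α σ) (N : ℕ) (hN : Fintype.card σ ≤ N) (f : α → Option β) (s : σ)
    (z : List α) (y : List β) (e : ℕ) (he : N ≤ e) (hz : z.filterMap f = rep y e) :
    ∃ (z₁ z₂ θ : List α) (i : ℕ), z = z₁ ++ z₂ ∧ i ≤ e ∧ z₁.filterMap f = rep y i ∧
      θ.filterMap f = rep y N.factorial ∧
      M.evalFrom (M.evalFrom s z₁) θ = M.evalFrom s z₁ := by
  obtain ⟨P, hP1, hP2, hP3⟩ := prefixes f y e z hz
  obtain ⟨a, b, hab, hEq⟩ : ∃ a b : Fin (N + 1), a ≠ b ∧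
      M.evalFrom s (P a) = M.evalFrom s (P b) := by
    apply Fintype.exists_ne_map_eq_of_card_lt
    simp; omega
  wlog hlt : a < b generalizing a b
  · exact this b a hab.symm hEq.symm (lt_of_le_of_ne (not_lt.1 hlt) hab.symm)
  have hlt' : (a : ℕ) < b := hlt
  have hb : (b : ℕ) ≤ N := by omega
  obtain ⟨u, hu, hu2⟩ := hP2 a b hlt'.le (by omega)
  obtain ⟨w, hw⟩ := hP3 a (by omega)
  have hdvd : ((b : ℕ) - a) ∣ N.factorial := Nat.dvd_factorial (by omega) (by omega)
  obtain ⟨d, hd⟩ := hdvd
  refine ⟨P a, w, rep u d, a, hw, by omega, hP1 a (by omega), ?_, ?_⟩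
  · rw [filterMap_rep, hu2, rep_rep, hd]
  · apply evalFrom_rep
    rw [← evalFrom_append, ← hu, hEq]

theorem skel [Fintype σ] (M : DFA α σ) (N : ℕ) (hN : Fintype.card σ ≤ N) (f : α → Option β) (s : σ)
    (x y : ℕ → List β) (e : ℕ → ℕ) (n : ℕ) (he : ∀ i < n, N ≤ e i) (z : List α)
    (hz : z.filterMap f = expand x y e n) :
    ∃ X Y : ℕ → List α, expand X Y 0 n = z ∧
      (∀ i < n, (Y i).filterMap f = rep (y i) N.factorial) ∧
      ∀ m : ℕ → ℕ, M.evalFrom s (expand X Y m n) = M.evalFrom s z ∧
        (expand X Y m n).filterMap f = expand x y (fun i => e i + N.factorial * m i) n := by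
  induction n generalizing z with
  | zero => exact ⟨fun _ => z, fun _ => [], rfl, by simp, fun m => ⟨rfl, hz⟩⟩
  | succ n ih =>
    rw [expand] at hz
    obtain ⟨z12, z3, rfl, h12, h3⟩ := List.filterMap_eq_append_iff.1 hz
    obtain ⟨z1, z2, rfl, h1, h2⟩ := List.filterMap_eq_append_iff.1 h12
    obtain ⟨X, Y, hXY, hY, hm⟩ := ih (fun i hi => he i (by omega)) z1 h1
    obtain ⟨a, b, θ, i, rfl, hi, ha, hθ, hloop⟩ := loop M N hN f (M.evalFrom s z1) z2 (y n) (e n)
      (he n (by omega)) h2
    refine ⟨fun l => if l = n + 1 then b ++ z3 else if l = n then X n ++ a else X l,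
      fun l => if l = n then θ else Y l, ?_, ?_, ?_⟩
    · rw [expand]
      rw [expand_congr (X' := fun l => if l = n then X n ++ a else X l) (Y' := Y) (m' := 0)
        (fun l hl => by
          have : l ≠ n + 1 := by omega
          simp [this]) (fun l hl => by
          have : l ≠ n := by omega
          simp [this]) (fun _ _ => rfl), expand_last, hXY]
      simp
    · intro l hl
      by_cases h : l = n
      · subst h; simpa using hθ
      · simp only [h, if_false]; exact hY l (by omega)
    · intro m
      have hexp : expand (fun l => if l = n + 1 then b ++ z3 else if l = n then X n ++ a else X l)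
          (fun l => if l = n then θ else Y l) m (n + 1)
          = expand X Y m n ++ a ++ rep θ (m n) ++ (b ++ z3) := by
        rw [expand]
        rw [expand_congr (X' := fun l => if l = n then X n ++ a else X l) (Y' := Y) (m' := m)
          (fun l hl => by
            have : l ≠ n + 1 := by omega
            simp [this]) (fun l hl => by
            have : l ≠ n := by omega
            simp [this]) (fun _ _ => rfl), expand_last]
        simp
      rw [hexp]
      obtain ⟨hm1, hm2⟩ := hm m
      constructor
      · simp only [evalFrom_append]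
        rw [hm1, evalFrom_rep M hloop]
      · have hb : rep (y n) i ++ b.filterMap f = rep (y n) (e n) := by
          rw [← ha, ← List.filterMap_append]; exact h2
        rw [expand, ← h3, ← hm2]
        simp only [List.filterMap_append, filterMap_rep, hθ, ha, rep_rep]
        have : rep (y n) i ++ (rep (y n) (N.factorial * m n) ++ (b.filterMap f ++ z3.filterMap f))
            = rep (y n) (e n + N.factorial * m n) ++ z3.filterMap f := by
          rw [← List.append_assoc, ← rep_add, Nat.add_comm i, rep_add, List.append_assoc,
            ← List.append_assoc (rep (y n) i), hb, ← List.append_assoc, ← rep_add, Nat.add_comm]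
        simp only [List.append_assoc, this]

end RCone
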