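import Pool.Agent.RC.Comp
import Pool.Agent.RC.Skel

/-!
# CP: the common path

Let `R` be regular (`z ∈ R` are the runs of `τ`), `ρ` a rational transduction given by `R'`. Let `D` be a
DFA for `joint R R'` with `K` states, `s = K ! * N !`. For `z ∈ R`, `z' ∈ R'` with `p1 z' = p2 z`,
`p2 z' = blk a n k` take a joint word `ζ` (`interleave`), apply `skel` to `D`, `ζ` and the projection
`l ↦ l.2.bind Prod.snd`, `x = fun _ => []`, `y = fun i => [a i]`: words `X₀, Y₀`; replace `Y₀ i` by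
`rep (Y₀ i) N !` (`expand_rep`), and project: `X i = j1 (X₀ i)`, `Y i = rep (j1 (Y₀ i)) N !`.
-/

namespace RCone
open List

theorem CP_f {X Y Z : Type} (ζ : List (J X Y Z)) :
    ζ.filterMap (fun l : J X Y Z => l.2.bind Prod.snd) = p2 (j2 ζ) := by
  simp only [p2, j2, List.filterMap_filterMap]

theorem common_path {X Y A : Type} {R : Language (Option X × Option Y)} (hR : R.IsRegular) (N : ℕ)
    {ρ : Set (List Y × List A)} (hρ : IsRational ρ) (k : ℕ) :
    ∃ K s : ℕ, 0 < s ∧ ∀ (a : ℕ → A) (n : ℕ → ℕ), (∀ i < k, K ≤ n i) →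
      ∀ z ∈ R, (p2 z, blk a n k) ∈ ρ →
      ∃ U V : ℕ → List (Option X × Option Y), expand U V 0 k = z ∧
        (∀ i < k, ∃ y', p2 (V i) = rep y' N.factorial) ∧
        ∀ m : ℕ → ℕ, expand U V m k ∈ R ∧
          (p2 (expand U V m k), blk a (fun i => n i + s * m i) k) ∈ ρ := by
  obtain ⟨R', hR', hiff⟩ := hρ
  obtain ⟨σ, hσ, M, hM⟩ := regular_joint hR hR'
  refine ⟨Fintype.card σ, (Fintype.card σ).factorial * N.factorial,
    Nat.mul_pos (Nat.factorial_pos _) (Nat.factorial_pos _), ?_⟩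
  intro a n hn z hz h
  obtain ⟨z', hz', h1, h2⟩ := (hiff _ _).1 h
  obtain ⟨ζ, hl, hj1, hj2⟩ := interleave z z' h1.symm
  have hζ : ζ ∈ joint R R' := by
    refine ⟨hl, ?_, ?_⟩
    · rw [hj1]; exact hz
    · rw [hj2]; exact hz'
  obtain ⟨X₀, Y₀, g1, g2, g3⟩ := skel M (Fintype.card σ) le_rfl
    (fun l : J X Y A => l.2.bind Prod.snd) M.start (fun _ => []) (fun i => [a i]) n k hn ζ
    (by rw [CP_f, hj2, h2]; rfl)
  have key : ∀ m : ℕ → ℕ, expand (fun i => j1 (X₀ i)) (fun i => rep (j1 (Y₀ i)) N.factorial) m k =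
      j1 (expand X₀ Y₀ (fun i => N.factorial * m i) k) := by
    intro m
    rw [expand_rep (fun i => j1 (X₀ i)) (fun i => j1 (Y₀ i)) (fun _ => N.factorial) m k]
    exact (filterMap_expand _ _ _ _ _).symm
  refine ⟨fun i => j1 (X₀ i), fun i => rep (j1 (Y₀ i)) N.factorial, ?_, ?_, ?_⟩
  · rw [key 0, ← hj1, ← g1]
    congr 1
  · intro i _
    exact ⟨p2 (j1 (Y₀ i)), p2_rep _ _⟩
  · intro m
    obtain ⟨q1, q2⟩ := g3 (fun i => N.factorial * m i)
    set ζ' := expand X₀ Y₀ (fun i => N.factorial * m i) k with hζ'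
    have hmem : ζ' ∈ joint R R' := by
      rw [← hM] at hζ ⊢
      rw [DFA.mem_accepts] at hζ ⊢
      rw [DFA.eval] at hζ ⊢
      rw [q1]
      exact hζ
    rw [key m]
    refine ⟨hmem.2.1, (hiff _ _).2 ⟨j2 ζ', hmem.2.2, (legal_mid ζ' hmem.1).symm, ?_⟩⟩
    rw [← CP_f, q2, blk]
    apply expand_congr (fun _ _ => rfl) (fun _ _ => rfl)
    intro i _
    ring

end RCone
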