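import Pool.Agent.RC.Norm
import Pool.Agent.RC.CP
import Pool.Agent.RC.Pattern
import Pool.Agent.RC.Blk
/-!
# CaseB: if `σ(B) ⊆ Sne` contains a word near the diagonal then `B` generates `Sne`

`B = im τ Sne`, `R` from `norm_Sne`. `common_path` with `N = 0` (any `N`), `k = 2`,
`a i = if i = 0 then 0 else 1`, `n 0 = n + s r`, `n 1 = n`: runs `expand U V m 2` with
`(p2 (expand U V m 2), 0^{n + s r + s m 0} 1^{n + s m 1}) ∈ σ`. If `m 1 = m 0 + r` the word is not in `Sne`, so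
`p2 (..) ∉ B`, so the weight `w0 + m 0 κ0 + m 1 κ1` is `0` (`wt_expand`): `κ0 = -κ1`, `w0 = -κ1 r`, and
`w0 ≠ 0`. So the weight is `κ1 (m 1 - m 0 - r)` and for `m = (t1, t2 + r)`:
`p2 (expand U V m 2) ∈ B ↔ t1 ≠ t2`. `pattern`.
-/
namespace RCone
open List

theorem CaseB_not_mem (q q' : ℕ) (hq : q = q') :
    (List.replicate q (0 : Fin 2) ++ List.replicate q' 1) ∉ Sne := by
  subst hq
  rintro ⟨m, n, hmn, h⟩
  apply hmn
  have h0 := congrArg (List.count (0 : Fin 2)) h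
  have h1 := congrArg (List.count (1 : Fin 2)) h
  simp only [List.count_append, List.count_replicate] at h0 h1
  simp at h0 h1
  omega

theorem caseB {Y : Type} {τ : Set (List (Fin 2) × List Y)} (hτ : IsRational τ)
    {σ : Set (List Y × List (Fin 2))} (hσ : IsRational σ)
    (hsub : ∀ w ∈ im σ (im τ Sne), w ∈ Sne) :
    ∃ K s : ℕ, 0 < s ∧ ∀ r n : ℕ, 0 < r → K ≤ n →
      (List.replicate (n + s * r) 0 ++ List.replicate n 1) ∈ im σ (im τ Sne) →
      ∃ π : Set (List Y × List (Fin 2)), IsRational π ∧ im π (im τ Sne) = Sne := by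
  obtain ⟨R, hR, -, hB⟩ := norm_Sne hτ
  obtain ⟨K, s, hs, hcp⟩ := common_path hR 0 hσ 2
  refine ⟨K, s, hs, ?_⟩
  intro r n hr hn hmem
  obtain ⟨u, hu, huw⟩ := hmem
  obtain ⟨z, hzR, hwz, rfl⟩ := (hB u).1 hu
  let a : ℕ → Fin 2 := fun i => if i = 0 then 0 else 1
  let nn : ℕ → ℕ := fun i => if i = 0 then n + s * r else n
  have hblk : blk a nn 2 = List.replicate (n + s * r) 0 ++ List.replicate n 1 := by
    rw [blk_two]
    simp [a, nn]
  obtain ⟨U, V, hUV, -, hall⟩ := hcp a nn (by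
    intro i _
    simp only [nn]
    split_ifs
    · exact le_trans hn (Nat.le_add_right _ _)
    · exact hn) z hzR (by rw [hblk]; exact huw)
  -- the words of the family
  have hword : ∀ m : ℕ → ℕ, blk a (fun i => nn i + s * m i) 2 =
      List.replicate (n + s * r + s * m 0) 0 ++ List.replicate (n + s * m 1) 1 := by
    intro m
    rw [blk_two]
    simp [a, nn]
  have hout : ∀ m : ℕ → ℕ, m 1 = m 0 + r → p2 (expand U V m 2) ∉ im τ Sne := by
    intro m hm hcon
    have h1 := hsub _ ⟨_, hcon, (hall m).2⟩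
    rw [hword m] at h1
    refine CaseB_not_mem _ _ ?_ h1
    rw [hm, Nat.mul_add]
    ring
  have hwt : ∀ m : ℕ → ℕ, wt (expand U V m 2) =
      wt z + (m 0 : ℤ) * wt (V 0) + (m 1 : ℤ) * wt (V 1) := by
    intro m
    rw [wt_expand, hUV, Finset.sum_range_succ, Finset.sum_range_succ, Finset.sum_range_zero]
    ring
  have hzero : ∀ m : ℕ → ℕ, m 1 = m 0 + r →
      wt z + (m 0 : ℤ) * wt (V 0) + (m 1 : ℤ) * wt (V 1) = 0 := by
    intro m hm
    rw [← hwt m]
    by_contra hne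
    exact hout m hm ((hB _).2 ⟨_, (hall m).1, hne, rfl⟩)
  have e0 := hzero (fun i => if i = 0 then 0 else r) (by simp)
  have e1 := hzero (fun i => if i = 0 then 1 else 1 + r) (by simp)
  simp only [if_true, if_neg one_ne_zero, Nat.cast_zero, Nat.cast_one, Nat.cast_add] at e0 e1
  have hκ : wt (V 0) = - wt (V 1) := by linarith
  have hw0 : wt z = - (r : ℤ) * wt (V 1) := by linarith
  have hκ1 : wt (V 1) ≠ 0 := by
    intro h0
    apply hwz
    rw [hw0, h0, mul_zero]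
  apply pattern (im τ Sne) (p2 (U 0)) (p2 (V 0)) (p2 (U 1)) (p2 (V 1)) (rep (p2 (V 1)) r ++ p2 (U 2))
  intro t1 t2
  let m : ℕ → ℕ := fun i => if i = 0 then t1 else t2 + r
  have hm0 : m 0 = t1 := rfl
  have hm1 : m 1 = t2 + r := rfl
  have hexp : p2 (expand U V m 2) =
      p2 (U 0) ++ rep (p2 (V 0)) t1 ++ p2 (U 1) ++ rep (p2 (V 1)) t2 ++
        (rep (p2 (V 1)) r ++ p2 (U 2)) := by
    have h2 : expand U V m 2 = (U 0 ++ rep (V 0) (m 0) ++ U 1) ++ rep (V 1) (m 1) ++ U 2 := rfl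
    rw [h2, hm0, hm1, rep_add]
    simp only [p2_append, p2_rep, List.append_assoc]
  rw [← hexp]
  constructor
  · intro hmem heq
    exact hout m (by rw [hm0, hm1, heq]) hmem
  · intro hne
    refine (hB _).2 ⟨_, (hall m).1, ?_, rfl⟩
    rw [hwt, hm0, hm1, hκ, hw0]
    have h3 : (-(r : ℤ) * wt (V 1) + (t1 : ℤ) * -wt (V 1) + ((t2 + r : ℕ) : ℤ) * wt (V 1)) =
        ((t2 : ℤ) - t1) * wt (V 1) := by
      push_cast
      ring
    rw [h3]
    apply mul_ne_zero _ hκ1
    intro h4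
    apply hne
    have : (t2 : ℤ) = t1 := by linarith
    exact_mod_cast this.symm

end RCone
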