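import Pool.Agent.RC.Skel
import Pool.Agent.RC.Blk
/-!
# CaseL: `LV` gives no word near the diagonal

Let `D` be a DFA for `R` (`σ` given by `R`), `K` its number of states, `s = K !`. Suppose
`v = p1 z ∈ LV`, `z ∈ R`, `p2 z = 0^{n + s r} 1^n`, `n ≥ K`. `skel` with the projection `Prod.snd`
(`x = fun _ => []`, `y 0 = [0]`, `y 1 = [1]`, two blocks): words `expand U V m 2 ∈ R` with second component
`0^{n + s r + s m 0} 1^{n + s m 1}`. If `m 1 = m 0 + r` this word is not in `Sne`, so
`v_m := p1 (expand U V m 2) ∉ LV`, so `v_m = blk (ltr k) t k`, `comb t = 0`. For `m = (2, 2 + r)` the word `v_m`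
contains the squares of `p1 (V 0)` and `p1 (V 1)`, so these are powers `(ltr i)^p`, `(ltr j)^q` of letters.
Comparing `m = (2, 2 + r)` and `m = (3, 3 + r)`: `p c_i + q c_j = 0`, so `p = q = 0` (`nopar`), so
`v = v_m ∉ LV`. Contradiction.
-/
namespace RCone
open List

theorem CaseL_exp {α : Type} (P Q : ℕ → List α) (m : ℕ → ℕ) :
    expand P Q m 2 = P 0 ++ rep (Q 0) (m 0) ++ P 1 ++ rep (Q 1) (m 1) ++ P 2 := rfl

theorem CaseL_count_rep {α : Type} [DecidableEq α] (a : α) (u : List α) (n : ℕ) :
    (rep u n).count a = n * u.count a := by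
  induction n with
  | zero => simp
  | succ n ih => rw [rep_succ, List.count_append, ih]; ring

theorem CaseL_count {α : Type} [DecidableEq α] (a : α) (P Q : ℕ → List α) (m : ℕ → ℕ) :
    (expand P Q m 2).count a = (P 0).count a + m 0 * (Q 0).count a + (P 1).count a
      + m 1 * (Q 1).count a + (P 2).count a := by
  rw [CaseL_exp]
  simp only [List.count_append, CaseL_count_rep]

theorem CaseL_ltr (k : ℕ) [NeZero k] {i l : ℕ} (hi : i < k) (hl : l < k)
    (h : ltr k i = ltr k l) : i = l := by
  have := congrArg Fin.val h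
  unfold ltr at this
  rw [Fin.val_ofNat, Fin.val_ofNat, Nat.mod_eq_of_lt hi, Nat.mod_eq_of_lt hl] at this
  exact this

theorem CaseL_cnt (k : ℕ) [NeZero k] {i l : ℕ} (hi : i < k) (hl : l < k) (p : ℕ) :
    ((List.replicate p (ltr k i)).count (ltr k l) : ℤ) = if l = i then (p : ℤ) else 0 := by
  split_ifs with h
  · subst h
    rw [List.count_replicate_self]
  · rw [List.count_replicate, if_neg]
    · rfl
    · intro h2
      have h3 : ltr k i = ltr k l := by simpa using h2
      exact h (CaseL_ltr k hi hl h3).symm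

theorem CaseL_sne (N : ℕ) :
    (List.replicate N (0 : Fin 2) ++ List.replicate N 1) ∉ Sne := by
  rintro ⟨a, b, hab, h⟩
  apply hab
  have h0 := congrArg (List.count 0) h
  have h1 := congrArg (List.count 1) h
  simp [List.count_replicate] at h0 h1
  omega

theorem caseL (e k : ℕ) [NeZero k] (c : ℕ → ℕ → ℤ)
    (nopar : ∀ i < k, ∀ j < k, ∀ p q : ℕ,
      (∀ x < e, (p : ℤ) * c i x + (q : ℤ) * c j x = 0) → p = 0 ∧ q = 0)
    {σ : Set (List (Fin k) × List (Fin 2))} (hσ : IsRational σ)
    (hsub : ∀ w ∈ im σ (LV e k c), w ∈ Sne) :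
    ∃ K s : ℕ, 0 < s ∧ ∀ r n : ℕ, 0 < r → K ≤ n →
      (List.replicate (n + s * r) 0 ++ List.replicate n 1) ∉ im σ (LV e k c) := by
  obtain ⟨R, ⟨S, hS, M, hM⟩, hR⟩ := hσ
  refine ⟨Fintype.card S, (Fintype.card S).factorial, Nat.factorial_pos _, ?_⟩
  rintro r n hr hn ⟨v, hv, hvw⟩
  obtain ⟨z, hz, hz1, hz2⟩ := (hR _ _).1 hvw
  set s := (Fintype.card S).factorial with hs
  have hmemR : ∀ z' : List (Option (Fin k) × Option (Fin 2)), z' ∈ R ↔
      M.evalFrom M.start z' ∈ M.accept := by
    intro z'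
    rw [← hM]
    rfl
  have hz2' : z.filterMap Prod.snd = expand (fun _ => ([] : List (Fin 2)))
      (fun i => if i = 0 then [0] else [1]) (fun i => if i = 0 then n + s * r else n) 2 := by
    rw [CaseL_exp]
    simp only [if_true, one_ne_zero, if_false, rep_singleton, List.nil_append, List.append_nil]
    exact hz2
  obtain ⟨U, V, hUV, -, hev⟩ := skel M (Fintype.card S) le_rfl Prod.snd M.start _ _ _ 2 (by
    intro i _
    show _ ≤ if i = 0 then n + s * r else n
    split_ifs
    · omega
    · exact hn) z hz2'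
  -- the words on the diagonal
  have hdiag : ∀ m0 : ℕ, ∃ t : ℕ → ℕ,
      expand (fun i => p1 (U i)) (fun i => p1 (V i)) (fun i => if i = 0 then m0 else m0 + r) 2 =
        blk (ltr k) t k ∧ ∀ x < e, comb k c t x = 0 := by
    intro m0
    obtain ⟨h1, h2⟩ := hev (fun i => if i = 0 then m0 else m0 + r)
    rw [← p1_expand]
    by_contra hcon
    have hLV : p1 (expand U V (fun i => if i = 0 then m0 else m0 + r) 2) ∈ LV e k c := hcon
    have hin : p2 (expand U V (fun i => if i = 0 then m0 else m0 + r) 2) ∈ im σ (LV e k c) := by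
      refine ⟨_, hLV, (hR _ _).2 ⟨_, ?_, rfl, rfl⟩⟩
      rw [hmemR, h1, ← hmemR]
      exact hz
    have h3 := hsub _ hin
    have h4 : p2 (expand U V (fun i => if i = 0 then m0 else m0 + r) 2) =
        List.replicate (n + s * r + s * m0) 0 ++ List.replicate (n + s * r + s * m0) 1 := by
      refine Eq.trans h2 ?_
      rw [CaseL_exp]
      simp only [if_true, one_ne_zero, if_false, rep_singleton, List.nil_append, List.append_nil]
      congr 2
      ring
    rw [h4] at h3
    exact CaseL_sne _ h3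
  obtain ⟨t, ht, htc⟩ := hdiag 2
  obtain ⟨t', ht', htc'⟩ := hdiag 3
  obtain ⟨i, hi, p, hp⟩ : ∃ i < k, ∃ p : ℕ, p1 (V 0) = List.replicate p (ltr k i) := by
    apply blk_square k (t := t) (A := p1 (U 0))
      (C := p1 (U 1) ++ rep (p1 (V 1)) (2 + r) ++ p1 (U 2))
    rw [← ht, CaseL_exp]
    simp only [if_true, one_ne_zero, if_false, rep_succ, rep_zero, List.append_assoc,
      List.append_nil]
  obtain ⟨j, hj, q, hq⟩ : ∃ j < k, ∃ q : ℕ, p1 (V 1) = List.replicate q (ltr k j) := by
    apply blk_square k (t := t) (A := p1 (U 0) ++ rep (p1 (V 0)) 2 ++ p1 (U 1))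
      (C := rep (p1 (V 1)) r ++ p1 (U 2))
    rw [← ht, CaseL_exp]
    simp only [if_true, one_ne_zero, if_false, rep_add, List.append_assoc]
    simp only [rep_succ, rep_zero, List.append_assoc, List.append_nil]
  have hcount : ∀ l < k, (t' l : ℤ) = t l + (if l = i then (p : ℤ) else 0) +
      (if l = j then (q : ℤ) else 0) := by
    intro l hl
    have e1 := blk_count k t l hl
    have e2 := blk_count k t' l hl
    rw [← ht, CaseL_count] at e1
    rw [← ht', CaseL_count] at e2
    rw [← CaseL_cnt k hi hl p, ← CaseL_cnt k hj hl q, ← hp, ← hq, ← e1, ← e2]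
    simp only [if_true, one_ne_zero, if_false]
    push_cast
    ring
  have hpq := nopar i hi j hj p q (by
    intro x hx
    have e1 := htc x hx
    have e2 := htc' x hx
    have e3 : comb k c t' x = comb k c t x + (p : ℤ) * c i x + (q : ℤ) * c j x := by
      unfold comb
      rw [Finset.sum_congr rfl (fun l hl => by
        rw [hcount l (Finset.mem_range.1 hl), add_mul, add_mul])]
      rw [Finset.sum_add_distrib, Finset.sum_add_distrib]
      congr 1
      · congr 1
        simp only [ite_mul, zero_mul, Finset.sum_ite_eq', Finset.mem_range, hi, if_true]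
      · simp only [ite_mul, zero_mul, Finset.sum_ite_eq', Finset.mem_range, hj, if_true]
    rw [e1, e2] at e3
    linarith)
  obtain ⟨hp0, hq0⟩ := hpq
  rw [hp0, List.replicate_zero] at hp
  rw [hq0, List.replicate_zero] at hq
  apply hv
  refine ⟨t, ?_, htc⟩
  rw [← ht, ← hz1, ← hUV, p1_expand, CaseL_exp, CaseL_exp]
  simp only [hp, hq, rep_nil]

end RCone
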