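import Pool.Agent.RC.Defs
/-!
# Cols: the explicit columns

`k = 4 e`, `g = 2 e`; `e ≥ 2`. With `𝟙 = (1, …, 1)`, `u_x` the unit vectors:
* `i = 0`: `𝟙 + u_0`; `0 < i < e`: `u_i`;
* `e ≤ i < 2e`: `𝟙 + u_{i-e}`;
* `i = 2e + 2c`: `-∑_{x ≤ c} u_x`; `i = 2e + 2c + 1`: `∑_{x > c} u_x` if `c + 1 < e`, `-u_0` if `c + 1 = e`.

* rows: row `x` is `≥ 0` before `2e + 2x` and `≤ 0` from there on.
* nopar: two columns of the same sign: look at a coordinate where they do not vanish (both columns are
  non-zero); opposite signs: the negative one has `-1` at `x = 0`; so the positive one is some `𝟙 + u_a`;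
  then the negative one must be `-𝟙`, and the coordinates `a` and some `b ≠ a` give `p = q = 0`.
* gen: multiplicities `v_a + M` on the column `𝟙 + u_a` (`i = e + a`), `q` on `-𝟙` (`i = 4e - 2`).
* isol: let `σ = ∑ l x`. If `l 0 < 0` the last column is positive, so all are `≥ 0`: `-σ ≥ 0` and
  `σ + l 0 ≥ 0`, contradiction. If `l x < 0`, `x ≥ 1`, column `x` is negative so all later are `≤ 0`:
  `-σ ≤ 0` and `σ + l a ≤ 0` for all `a`, so `l a ≤ 0` for all `a`, `σ < 0`, contradiction. So `l ≥ 0`;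
  if `l x, l y > 0`, `x < y`, the columns `2e + 2x`, `2e + 2x + 1` contradict.
* left: the columns `𝟙 + u_a`. right: the columns `-∑_{x ≤ c} u_x`. pair: `i = e + a`, `j = 4e - 2`.
-/
namespace RCone

def cols (e i x : ℕ) : ℤ :=
  if i < e then (if i = 0 then 1 + (if x = 0 then 1 else 0) else if x = i then 1 else 0)
  else if i < 2 * e then 1 + (if x = i - e then 1 else 0)
  else if (i - 2 * e) % 2 = 0 then (if x ≤ (i - 2 * e) / 2 then -1 else 0)
  else if (i - 2 * e) / 2 + 1 < e then (if (i - 2 * e) / 2 < x then 1 else 0)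
  else (if x = 0 then -1 else 0)

theorem cols_A {e a : ℕ} (ha : a < e) (x : ℕ) :
    cols e (e + a) x = 1 + (if x = a then 1 else 0) := by
  unfold cols
  rw [if_neg (by omega), if_pos (by omega)]
  simp

theorem cols_Z {e : ℕ} (he : 0 < e) (x : ℕ) :
    cols e 0 x = 1 + (if x = 0 then 1 else 0) := by
  unfold cols
  rw [if_pos he, if_pos rfl]

theorem cols_B {e i : ℕ} (hi0 : 0 < i) (hi : i < e) (x : ℕ) :
    cols e i x = if x = i then 1 else 0 := by
  unfold cols
  rw [if_pos hi, if_neg (by omega)]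

theorem cols_C (e c x : ℕ) :
    cols e (2 * e + 2 * c) x = if x ≤ c then -1 else 0 := by
  unfold cols
  rw [if_neg (by omega), if_neg (by omega), if_pos (by omega)]
  have : (2 * e + 2 * c - 2 * e) / 2 = c := by omega
  rw [this]

theorem cols_D {e c : ℕ} (hc : c + 1 < e) (x : ℕ) :
    cols e (2 * e + 2 * c + 1) x = if c < x then 1 else 0 := by
  unfold cols
  rw [if_neg (by omega), if_neg (by omega), if_neg (by omega)]
  have : (2 * e + 2 * c + 1 - 2 * e) / 2 = c := by omega
  rw [this, if_pos hc]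

theorem cols_E {e : ℕ} (he : 0 < e) (x : ℕ) :
    cols e (4 * e - 1) x = if x = 0 then -1 else 0 := by
  unfold cols
  rw [if_neg (by omega), if_neg (by omega), if_neg (by omega), if_neg (by omega)]

theorem cols_cases {e i : ℕ} (hi : i < 4 * e) :
    i = 0 ∨ (0 < i ∧ i < e) ∨ (∃ a < e, i = e + a) ∨ (∃ c < e, i = 2 * e + 2 * c) ∨
      (∃ c, c + 1 < e ∧ i = 2 * e + 2 * c + 1) ∨ i = 4 * e - 1 := by
  by_cases h0 : i = 0
  · exact Or.inl h0
  by_cases h1 : i < e
  · exact Or.inr (Or.inl ⟨by omega, h1⟩)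
  by_cases h2 : i < 2 * e
  · exact Or.inr (Or.inr (Or.inl ⟨i - e, by omega, by omega⟩))
  by_cases h3 : i % 2 = 0
  · exact Or.inr (Or.inr (Or.inr (Or.inl ⟨(i - 2 * e) / 2, by omega, by omega⟩)))
  by_cases h4 : (i - 2 * e) / 2 + 1 < e
  · exact Or.inr (Or.inr (Or.inr (Or.inr (Or.inl ⟨(i - 2 * e) / 2, h4, by omega⟩))))
  · exact Or.inr (Or.inr (Or.inr (Or.inr (Or.inr (by omega)))))

theorem cols_class {e i : ℕ} (he : 2 ≤ e) (hi : i < 4 * e) :
    (∃ a < e, ∀ x, cols e i x = 1 + (if x = a then 1 else 0)) ∨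
    ((∀ x, 0 ≤ cols e i x) ∧ cols e i 0 = 0 ∧ ∃ b < e, cols e i b = 1) ∨
    (cols e i 0 = -1 ∧ ∀ x, cols e i x = 0 ∨ cols e i x = -1) := by
  rcases cols_cases hi with rfl | ⟨h0, h1⟩ | ⟨a, ha, rfl⟩ | ⟨c, hc, rfl⟩ | ⟨c, hc, rfl⟩ | rfl
  · exact Or.inl ⟨0, by omega, fun x => cols_Z (by omega) x⟩
  · refine Or.inr (Or.inl ⟨fun x => ?_, ?_, i, h1, ?_⟩)
    · rw [cols_B h0 h1]; split_ifs <;> norm_num
    · rw [cols_B h0 h1, if_neg (by omega)]
    · rw [cols_B h0 h1, if_pos rfl]
  · exact Or.inl ⟨a, ha, fun x => cols_A ha x⟩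
  · refine Or.inr (Or.inr ⟨?_, fun x => ?_⟩)
    · rw [cols_C, if_pos (Nat.zero_le _)]
    · rw [cols_C]; split_ifs <;> simp
  · refine Or.inr (Or.inl ⟨fun x => ?_, ?_, c + 1, hc, ?_⟩)
    · rw [cols_D hc]; split_ifs <;> norm_num
    · rw [cols_D hc, if_neg (by omega)]
    · rw [cols_D hc, if_pos (by omega)]
  · refine Or.inr (Or.inr ⟨?_, fun x => ?_⟩)
    · rw [cols_E (by omega), if_pos rfl]
    · rw [cols_E (by omega)]; split_ifs <;> simp

theorem cols_nopar (e : ℕ) (he : 2 ≤ e) : ∀ i < 4 * e, ∀ j < 4 * e, ∀ p q : ℕ,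
    (∀ x < e, (p : ℤ) * cols e i x + (q : ℤ) * cols e j x = 0) → p = 0 ∧ q = 0 := by
  -- a positive column against a non-negative one
  have pos : ∀ i < 4 * e, (∀ x, 0 ≤ cols e i x) → ∀ b < e, 0 < cols e i b → ∀ j < 4 * e,
      (∀ x, 0 ≤ cols e j x) → ∀ p q : ℕ,
      (∀ x < e, (p : ℤ) * cols e i x + (q : ℤ) * cols e j x = 0) → p = 0 := by
    intro i _ _ b hb hib j _ hj p q h
    have h1 := h b hb
    have h2 : 0 ≤ (q : ℤ) * cols e j b := mul_nonneg (Int.natCast_nonneg q) (hj b)
    have h3 : 0 ≤ (p : ℤ) := Int.natCast_nonneg p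
    by_contra hp
    have h4 : 0 < (p : ℤ) := by omega
    have h5 : 0 < (p : ℤ) * cols e i b := mul_pos h4 hib
    linarith
  -- a positive column against a negative one
  have key : ∀ i < 4 * e, ∀ j < 4 * e,
      ((∃ a < e, ∀ x, cols e i x = 1 + (if x = a then 1 else 0)) ∨
        ((∀ x, 0 ≤ cols e i x) ∧ cols e i 0 = 0 ∧ ∃ b < e, cols e i b = 1)) →
      (cols e j 0 = -1 ∧ ∀ x, cols e j x = 0 ∨ cols e j x = -1) → ∀ p q : ℕ,
      (∀ x < e, (p : ℤ) * cols e i x + (q : ℤ) * cols e j x = 0) → p = 0 ∧ q = 0 := by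
    intro i _ j _ hi hj p q h
    rcases hi with ⟨a, ha, hi⟩ | ⟨_, hi0, b, hb, hib⟩
    · obtain ⟨b, hb, hba⟩ : ∃ b < e, b ≠ a := by
        by_cases h0 : a = 0
        · exact ⟨1, by omega, by omega⟩
        · exact ⟨0, by omega, by omega⟩
      have h1 := h a ha
      have h2 := h b hb
      have h3 := h 0 (by omega)
      rw [hi a, if_pos rfl] at h1
      rw [hi b, if_neg hba] at h2
      rw [hi 0, hj.1] at h3
      rcases hj.2 a with h4 | h4 <;> rcases hj.2 b with h5 | h5 <;> rw [h4] at h1 <;>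
        rw [h5] at h2 <;> split_ifs at h3 <;> constructor <;> omega
    · have h1 := h b hb
      have h3 := h 0 (by omega)
      rw [hi0, hj.1] at h3
      rw [hib] at h1
      have hq : q = 0 := by omega
      subst hq
      constructor
      · push_cast at h1
        omega
      · rfl
  have posA : ∀ i < 4 * e, ((∃ a < e, ∀ x, cols e i x = 1 + (if x = a then 1 else 0)) ∨
        ((∀ x, 0 ≤ cols e i x) ∧ cols e i 0 = 0 ∧ ∃ b < e, cols e i b = 1)) →
        (∀ x, 0 ≤ cols e i x) ∧ ∃ b < e, 0 < cols e i b := by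
    intro i _ h
    rcases h with ⟨a, ha, h⟩ | ⟨h1, _, b, hb, h3⟩
    · refine ⟨fun x => ?_, a, ha, ?_⟩
      · rw [h]; split_ifs <;> norm_num
      · rw [h]; split_ifs <;> norm_num
    · exact ⟨h1, b, hb, by rw [h3]; norm_num⟩
  intro i hi j hj p q h
  have h' : ∀ x < e, (q : ℤ) * cols e j x + (p : ℤ) * cols e i x = 0 := fun x hx => by
    rw [add_comm]; exact h x hx
  rcases or_assoc.2 (cols_class he hi) with ci | ci <;>
    rcases or_assoc.2 (cols_class he hj) with cj | cj
  · obtain ⟨hi1, b, hb, hi2⟩ := posA i hi ci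
    obtain ⟨hj1, b', hb', hj2⟩ := posA j hj cj
    exact ⟨pos i hi hi1 b hb hi2 j hj hj1 p q h, pos j hj hj1 b' hb' hj2 i hi hi1 q p h'⟩
  · exact key i hi j hj ci cj p q h
  · exact (key j hj i hi cj ci q p h').symm
  · have h3 := h 0 (by omega)
    rw [ci.1, cj.1] at h3
    constructor <;> omega

theorem cols_last {e x : ℕ} (hx : x < e) : cols e (4 * e - 2) x = -1 := by
  have h : 4 * e - 2 = 2 * e + 2 * (e - 1) := by omega
  rw [h, cols_C, if_pos (by omega)]

theorem cols_gen (e : ℕ) (he : 2 ≤ e) (v : ℕ → ℤ) :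
    ∃ m : ℕ → ℕ, ∀ x < e, comb (4 * e) (cols e) m x = v x := by
  obtain ⟨M, hM⟩ : ∃ M : ℤ, 0 ≤ M ∧ ∀ a < e, 0 ≤ v a + M := by
    refine ⟨∑ a ∈ Finset.range e, |v a|, Finset.sum_nonneg fun a _ => abs_nonneg _, ?_⟩
    intro a ha
    have h1 := Finset.single_le_sum (f := fun a => |v a|) (fun a _ => abs_nonneg _)
      (Finset.mem_range.2 ha)
    have h2 := neg_abs_le (v a)
    linarith
  obtain ⟨hM0, hM⟩ := hM
  set q : ℤ := (∑ a ∈ Finset.range e, (v a + M)) + M with hq
  have hq0 : 0 ≤ q := add_nonneg (Finset.sum_nonneg fun a ha => hM a (Finset.mem_range.1 ha)) hM0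
  refine ⟨fun i => if e ≤ i ∧ i < 2 * e then (v (i - e) + M).toNat
    else if i = 4 * e - 2 then q.toNat else 0, ?_⟩
  intro x hx
  unfold comb
  have h4 : 4 * e = e + (e + 2 * e) := by ring
  have hsplit : ∀ F : ℕ → ℤ, ∑ i ∈ Finset.range (4 * e), F i =
      (∑ i ∈ Finset.range e, F i) + ((∑ i ∈ Finset.range e, F (e + i)) +
        ∑ i ∈ Finset.range (2 * e), F (e + (e + i))) := by
    intro F
    rw [h4, Finset.sum_range_add, Finset.sum_range_add]
  rw [hsplit]
  have h1 : ∀ i ∈ Finset.range e, (((if e ≤ i ∧ i < 2 * e then (v (i - e) + M).toNat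
      else if i = 4 * e - 2 then q.toNat else 0 : ℕ) : ℤ) * cols e i x) = 0 := by
    intro i hi
    have := Finset.mem_range.1 hi
    rw [if_neg (by omega), if_neg (by omega)]
    simp
  have h2 : ∀ i ∈ Finset.range e, (((if e ≤ e + i ∧ e + i < 2 * e then (v (e + i - e) + M).toNat
      else if e + i = 4 * e - 2 then q.toNat else 0 : ℕ) : ℤ) * cols e (e + i) x) =
      (v i + M) + (if x = i then (v i + M) else 0) := by
    intro i hi
    have hi' := Finset.mem_range.1 hi
    rw [if_pos (by omega), cols_A hi', Nat.add_sub_cancel_left, Int.toNat_of_nonneg (hM i hi')]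
    split_ifs <;> ring
  have h3 : ∑ i ∈ Finset.range (2 * e), (((if e ≤ e + (e + i) ∧ e + (e + i) < 2 * e then
      (v (e + (e + i) - e) + M).toNat
      else if e + (e + i) = 4 * e - 2 then q.toNat else 0 : ℕ) : ℤ) * cols e (e + (e + i)) x) =
      - q := by
    rw [Finset.sum_eq_single (2 * e - 2)]
    · rw [if_neg (by omega), if_pos (by omega), Int.toNat_of_nonneg hq0]
      have : e + (e + (2 * e - 2)) = 4 * e - 2 := by omega
      rw [this, cols_last hx]
      ring
    · intro b hb hne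
      have := Finset.mem_range.1 hb
      rw [if_neg (by omega), if_neg (by omega)]
      simp
    · intro h
      exact absurd (Finset.mem_range.2 (by omega)) h
  rw [Finset.sum_congr rfl h1, Finset.sum_congr rfl h2, h3, Finset.sum_add_distrib,
    Finset.sum_ite_eq, if_pos (Finset.mem_range.2 hx), hq, Finset.sum_const_zero]
  ring

theorem dot_A {e a : ℕ} (ha : a < e) (l : ℕ → ℤ) :
    dot e l (cols e (e + a)) = (∑ x ∈ Finset.range e, l x) + l a := by
  unfold dot
  have h : ∀ x ∈ Finset.range e, l x * cols e (e + a) x = l x + (if x = a then l x else 0) := by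
    intro x _
    rw [cols_A ha]
    split_ifs <;> ring
  rw [Finset.sum_congr rfl h, Finset.sum_add_distrib, Finset.sum_ite_eq',
    if_pos (Finset.mem_range.2 ha)]

theorem dot_Z {e : ℕ} (he : 0 < e) (l : ℕ → ℤ) :
    dot e l (cols e 0) = (∑ x ∈ Finset.range e, l x) + l 0 := by
  unfold dot
  have h : ∀ x ∈ Finset.range e, l x * cols e 0 x = l x + (if x = 0 then l x else 0) := by
    intro x _
    rw [cols_Z he]
    split_ifs <;> ring
  rw [Finset.sum_congr rfl h, Finset.sum_add_distrib, Finset.sum_ite_eq',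
    if_pos (Finset.mem_range.2 he)]

theorem dot_B {e i : ℕ} (hi0 : 0 < i) (hi : i < e) (l : ℕ → ℤ) :
    dot e l (cols e i) = l i := by
  unfold dot
  have h : ∀ x ∈ Finset.range e, l x * cols e i x = (if x = i then l x else 0) := by
    intro x _
    rw [cols_B hi0 hi]
    split_ifs <;> ring
  rw [Finset.sum_congr rfl h, Finset.sum_ite_eq', if_pos (Finset.mem_range.2 hi)]

theorem dot_C {e c : ℕ} (hc : c < e) (l : ℕ → ℤ) :
    dot e l (cols e (2 * e + 2 * c)) = - ∑ x ∈ Finset.range (c + 1), l x := by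
  unfold dot
  have h : ∀ x ∈ Finset.range e, l x * cols e (2 * e + 2 * c) x =
      (if x ∈ Finset.range (c + 1) then - l x else 0) := by
    intro x _
    rw [cols_C]
    simp only [Finset.mem_range]
    by_cases hx : x ≤ c
    · rw [if_pos hx, if_pos (by omega)]; ring
    · rw [if_neg hx, if_neg (by omega)]; ring
  rw [Finset.sum_congr rfl h, Finset.sum_ite_mem, ← Finset.sum_neg_distrib]
  refine Finset.sum_congr ?_ fun _ _ => rfl
  ext x
  simp only [Finset.mem_inter, Finset.mem_range]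
  omega

theorem dot_D {e c : ℕ} (hc : c + 1 < e) (l : ℕ → ℤ) :
    dot e l (cols e (2 * e + 2 * c + 1)) =
      ∑ x ∈ Finset.range e, (if c < x then l x else 0) := by
  unfold dot
  refine Finset.sum_congr rfl fun x _ => ?_
  rw [cols_D hc]
  split_ifs <;> ring

theorem dot_E {e : ℕ} (he : 0 < e) (l : ℕ → ℤ) :
    dot e l (cols e (4 * e - 1)) = - l 0 := by
  unfold dot
  have h : ∀ x ∈ Finset.range e, l x * cols e (4 * e - 1) x = (if x = 0 then - l x else 0) := by
    intro x _
    rw [cols_E he]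
    split_ifs <;> ring
  rw [Finset.sum_congr rfl h, Finset.sum_ite_eq', if_pos (Finset.mem_range.2 he)]

theorem dot_last {e : ℕ} (he : 0 < e) (l : ℕ → ℤ) :
    dot e l (cols e (4 * e - 2)) = - ∑ x ∈ Finset.range e, l x := by
  have h : 4 * e - 2 = 2 * e + 2 * (e - 1) := by omega
  rw [h, dot_C (by omega), Nat.sub_add_cancel (by omega)]

theorem cols_isol (e : ℕ) (he : 2 ≤ e) (l : ℕ → ℤ)
    (h : ∀ i j, i < j → j < 4 * e → ¬ (dot e l (cols e i) < 0 ∧ 0 < dot e l (cols e j))) :
    ∃ b, ∀ x < e, x ≠ b → l x = 0 := by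
  have hl0 : 0 ≤ l 0 := by
    by_contra hneg
    have h1 := h (4 * e - 2) (4 * e - 1) (by omega) (by omega)
    have h2 := h 0 (4 * e - 1) (by omega) (by omega)
    rw [dot_last (by omega), dot_E (by omega)] at h1
    rw [dot_Z (by omega), dot_E (by omega)] at h2
    push Not at h1 h2
    have h3 : 0 ≤ - ∑ x ∈ Finset.range e, l x := by
      by_contra h4
      have := h1 (by linarith)
      linarith
    have h5 : 0 ≤ (∑ x ∈ Finset.range e, l x) + l 0 := by
      by_contra h6
      have := h2 (by linarith)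
      linarith
    linarith
  have hl : ∀ x < e, 0 ≤ l x := by
    intro x hx
    by_contra hneg
    have hx0 : 0 < x := by
      rcases Nat.eq_zero_or_pos x with rfl | h'
      · exact absurd hl0 hneg
      · exact h'
    have h1 := h x (4 * e - 2) (by omega) (by omega)
    rw [dot_B hx0 hx, dot_last (by omega)] at h1
    push Not at h1
    have h2 := h1 (by linarith)
    have h3 : ∀ a < e, l a ≤ 0 := by
      intro a ha
      have h4 := h x (e + a) (by omega) (by omega)
      rw [dot_B hx0 hx, dot_A ha] at h4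
      push Not at h4
      have h5 := h4 (by linarith)
      linarith
    have h6 : ∑ y ∈ Finset.range e, l y < 0 := by
      have h7 : ∑ y ∈ Finset.range e, l y < ∑ y ∈ Finset.range e, (0 : ℤ) :=
        Finset.sum_lt_sum (fun y hy => h3 y (Finset.mem_range.1 hy))
          ⟨x, Finset.mem_range.2 hx, by linarith⟩
      simpa using h7
    linarith
  have two : ∀ x y, x < y → y < e → ¬ (l x ≠ 0 ∧ l y ≠ 0) := by
    intro x y hxy hy hne
    have h1 := h (2 * e + 2 * x) (2 * e + 2 * x + 1) (by omega) (by omega)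
    rw [dot_C (by omega), dot_D (by omega)] at h1
    apply h1
    have hx0 : 0 < l x := lt_of_le_of_ne (hl x (by omega)) (Ne.symm hne.1)
    have hy0 : 0 < l y := lt_of_le_of_ne (hl y hy) (Ne.symm hne.2)
    constructor
    · have h2 := Finset.single_le_sum (f := l) (s := Finset.range (x + 1))
        (fun i hi => hl i (by have := Finset.mem_range.1 hi; omega))
        (Finset.mem_range.2 (Nat.lt_succ_self x))
      linarith
    · have h2 := Finset.single_le_sum (f := fun z => if x < z then l z else 0)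
        (s := Finset.range e)
        (fun i hi => by
          split_ifs
          · exact hl i (Finset.mem_range.1 hi)
          · exact le_refl _)
        (Finset.mem_range.2 hy)
      simp only [if_pos hxy] at h2
      linarith
  by_cases hb : ∃ b < e, l b ≠ 0
  · obtain ⟨b, hb, hbl⟩ := hb
    refine ⟨b, fun x hx hxb => ?_⟩
    by_contra hne
    rcases Nat.lt_or_gt_of_ne hxb with h' | h'
    · exact two x b h' hb ⟨hne, hbl⟩
    · exact two b x h' hx ⟨hbl, hne⟩
  · push Not at hb
    exact ⟨0, fun x hx _ => hb x hx⟩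

theorem cols_left (e : ℕ) (l l' : ℕ → ℤ)
    (h : ∀ i < 2 * e, dot e l (cols e i) = dot e l' (cols e i)) : ∀ x < e, l x = l' x := by
  have h1 : ∀ a < e, (∑ x ∈ Finset.range e, l x) + l a = (∑ x ∈ Finset.range e, l' x) + l' a := by
    intro a ha
    have := h (e + a) (by omega)
    rwa [dot_A ha, dot_A ha] at this
  have h2 : ∑ a ∈ Finset.range e, ((∑ x ∈ Finset.range e, l x) + l a) =
      ∑ a ∈ Finset.range e, ((∑ x ∈ Finset.range e, l' x) + l' a) :=
    Finset.sum_congr rfl fun a ha => h1 a (Finset.mem_range.1 ha)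
  rw [Finset.sum_add_distrib, Finset.sum_add_distrib] at h2
  simp only [Finset.sum_const, Finset.card_range, nsmul_eq_mul] at h2
  have h3 : ∑ x ∈ Finset.range e, l x = ∑ x ∈ Finset.range e, l' x := by
    have h4 : ((e : ℤ) + 1) * (∑ x ∈ Finset.range e, l x) =
        ((e : ℤ) + 1) * (∑ x ∈ Finset.range e, l' x) := by linarith
    exact mul_left_cancel₀ (by positivity) h4
  intro x hx
  have h5 := h1 x hx
  rw [h3] at h5
  exact add_left_cancel h5

theorem cols_right (e : ℕ) (l l' : ℕ → ℤ)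
    (h : ∀ i, 2 * e ≤ i → i < 4 * e → dot e l (cols e i) = dot e l' (cols e i)) :
    ∀ x < e, l x = l' x := by
  have h1 : ∀ c < e, ∑ x ∈ Finset.range (c + 1), l x = ∑ x ∈ Finset.range (c + 1), l' x := by
    intro c hc
    have := h (2 * e + 2 * c) (by omega) (by omega)
    rw [dot_C hc, dot_C hc] at this
    linarith
  intro x hx
  have h2 := h1 x hx
  rw [Finset.sum_range_succ, Finset.sum_range_succ] at h2
  rcases Nat.eq_zero_or_pos x with rfl | hx0
  · simpa using h2
  · have h3 := h1 (x - 1) (by omega)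
    rw [Nat.sub_add_cancel hx0] at h3
    linarith

theorem goodCols (e : ℕ) (he : 2 ≤ e) : GoodCols e (4 * e) (2 * e) (cols e) where
  hg := by omega
  hk := by omega
  rows := by
    intro x hx
    refine ⟨2 * e + 2 * x, ?_, ?_⟩
    · intro i hi hik
      rcases cols_cases hik with rfl | ⟨h0, h1⟩ | ⟨a, ha, rfl⟩ | ⟨c, hc, rfl⟩ | ⟨c, hc, rfl⟩ | rfl
      · rw [cols_Z (by omega)]; split_ifs <;> norm_num
      · rw [cols_B h0 h1]; split_ifs <;> norm_num
      · rw [cols_A ha]; split_ifs <;> norm_num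
      · rw [cols_C, if_neg (by omega)]
      · rw [cols_D hc]; split_ifs <;> norm_num
      · omega
    · intro i hi hik
      rcases cols_cases hik with rfl | ⟨h0, h1⟩ | ⟨a, ha, rfl⟩ | ⟨c, hc, rfl⟩ | ⟨c, hc, rfl⟩ | rfl
      · omega
      · omega
      · omega
      · rw [cols_C]; split_ifs <;> norm_num
      · rw [cols_D hc, if_neg (by omega)]
      · rw [cols_E (by omega)]; split_ifs <;> norm_num
  nopar := cols_nopar e he
  gen := cols_gen e he
  isol := cols_isol e he
  left := cols_left e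
  right := cols_right e
  pair := by
    intro a ha
    exact ⟨e + a, 4 * e - 2, by omega, by omega, fun x _ => cols_A ha x, fun x hx => cols_last hx⟩

end RCone
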