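import Pool.Agent.RC.Words
/-!
# CompA: joint words
-/
namespace RCone
open List

variable {X Y Z : Type}

/-- letters of joint words: a letter of the first transducer and/or a letter of the second -/
abbrev J (X Y Z : Type) : Type := Option (Option X × Option Y) × Option (Option Y × Option Z)

/-- A joint letter is legal if the middle components agree. -/
def legal : J X Y Z → Prop
  | (none, none) => False
  | (some a, none) => a.2 = none
  | (none, some b) => b.1 = none
  | (some a, some b) => a.2 ≠ none ∧ a.2 = b.1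

def j1 (ζ : List (J X Y Z)) : List (Option X × Option Y) := ζ.filterMap Prod.fst
def j2 (ζ : List (J X Y Z)) : List (Option Y × Option Z) := ζ.filterMap Prod.snd

theorem legal_mid (ζ : List (J X Y Z)) (h : ∀ l ∈ ζ, legal l) : p2 (j1 ζ) = p1 (j2 ζ) := by
  induction ζ with
  | nil => rfl
  | cons l ζ ih =>
    have h1 := h l (by simp)
    have h2 := ih (fun l hl => h l (by simp [hl]))
    simp only [p1, p2, j1, j2] at h2 ⊢
    rcases l with ⟨_ | ⟨a, b⟩, _ | ⟨c, d⟩⟩
    · exact absurd h1 (by simp [legal])
    · simp only [legal] at h1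
      subst h1
      simpa using h2
    · simp only [legal] at h1
      subst h1
      simpa using h2
    · simp only [legal] at h1
      obtain ⟨h3, h4⟩ := h1
      subst h4
      rcases b with _ | b
      · exact absurd rfl h3
      · simpa using h2

theorem interleave_aux : ∀ (z₁ : List (Option X × Option Y)) (z₂ : List (Option Y × Option Z))
    (_ : p2 z₁ = p1 z₂), ∃ ζ : List (J X Y Z), (∀ l ∈ ζ, legal l) ∧ j1 ζ = z₁ ∧ j2 ζ = z₂
  | [], [], _ => ⟨[], by simp, rfl, rfl⟩
  | [], (none, z) :: z₂, h => by
    obtain ⟨ζ, h1, h2, h3⟩ := interleave_aux [] z₂ (by simpa [p1, p2] using h)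
    refine ⟨(none, some (none, z)) :: ζ, ?_, ?_, ?_⟩
    · intro l hl
      rcases List.mem_cons.1 hl with rfl | hl
      · simp [legal]
      · exact h1 l hl
    · simpa [j1] using h2
    · simpa [j2] using h3
  | [], (some y, z) :: z₂, h => by simp [p1, p2] at h
  | (x, none) :: z₁, z₂, h => by
    obtain ⟨ζ, h1, h2, h3⟩ := interleave_aux z₁ z₂ (by simpa [p1, p2] using h)
    refine ⟨(some (x, none), none) :: ζ, ?_, ?_, ?_⟩
    · intro l hl
      rcases List.mem_cons.1 hl with rfl | hl
      · simp [legal]
      · exact h1 l hl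
    · simpa [j1] using h2
    · simpa [j2] using h3
  | (x, some y) :: z₁, [], h => by simp [p1, p2] at h
  | (x, some y) :: z₁, (none, z) :: z₂, h => by
    obtain ⟨ζ, h1, h2, h3⟩ := interleave_aux ((x, some y) :: z₁) z₂ (by simpa [p1, p2] using h)
    refine ⟨(none, some (none, z)) :: ζ, ?_, ?_, ?_⟩
    · intro l hl
      rcases List.mem_cons.1 hl with rfl | hl
      · simp [legal]
      · exact h1 l hl
    · simpa [j1] using h2
    · simpa [j2] using h3
  | (x, some y) :: z₁, (some y', z) :: z₂, h => by
    have h0 : y = y' ∧ p2 z₁ = p1 z₂ := by simpa [p1, p2] using h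
    obtain ⟨ζ, h1, h2, h3⟩ := interleave_aux z₁ z₂ h0.2
    refine ⟨(some (x, some y), some (some y', z)) :: ζ, ?_, ?_, ?_⟩
    · intro l hl
      rcases List.mem_cons.1 hl with rfl | hl
      · simp [legal, h0.1]
      · exact h1 l hl
    · simpa [j1] using h2
    · simpa [j2] using h3
termination_by z₁ z₂ => z₁.length + z₂.length

/-- interleaving (induction on the sum of the lengths) -/
theorem interleave (z₁ : List (Option X × Option Y)) (z₂ : List (Option Y × Option Z))
    (h : p2 z₁ = p1 z₂) : ∃ ζ : List (J X Y Z), (∀ l ∈ ζ, legal l) ∧ j1 ζ = z₁ ∧ j2 ζ = z₂ :=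
  interleave_aux z₁ z₂ h

end RCone
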