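import Pool.Agent.RC.Reg
import Pool.Agent.RC.CompA
/-!
# Comp: composition of rational transductions
-/
namespace RCone
open List

variable {X Y Z : Type}

/-- the joint language -/
def joint (R₁ : Language (Option X × Option Y)) (R₂ : Language (Option Y × Option Z)) :
    Language (J X Y Z) := {ζ | (∀ l ∈ ζ, legal l) ∧ j1 ζ ∈ R₁ ∧ j2 ζ ∈ R₂}

theorem regular_joint {R₁ : Language (Option X × Option Y)} {R₂ : Language (Option Y × Option Z)}
    (h₁ : R₁.IsRegular) (h₂ : R₂.IsRegular) : (joint R₁ R₂).IsRegular := by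
  have a1 := regular_forall (α := J X Y Z) legal
  have a2 := regular_preimage (α := J X Y Z) Prod.fst h₁
  have a3 := regular_preimage (α := J X Y Z) Prod.snd h₂
  have e : joint R₁ R₂ = ({ζ | ∀ l ∈ ζ, legal l} : Language (J X Y Z)) ⊓
      (({ζ | ζ.filterMap Prod.fst ∈ R₁} : Language (J X Y Z)) ⊓
        ({ζ | ζ.filterMap Prod.snd ∈ R₂} : Language (J X Y Z))) := by
    ext ζ
    exact Iff.rfl
  rw [e]
  exact a1.inf (a2.inf a3)

/-- letter map of the composition -/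
def Comp_g (l : J X Y Z) : Option X × Option Z := (l.1.bind Prod.fst, l.2.bind Prod.snd)

theorem Comp_p1 (ζ : List (J X Y Z)) : p1 (ζ.map Comp_g) = p1 (j1 ζ) := by
  simp only [p1, j1, List.filterMap_map, List.filterMap_filterMap]
  rfl

theorem Comp_p2 (ζ : List (J X Y Z)) : p2 (ζ.map Comp_g) = p2 (j2 ζ) := by
  simp only [p2, j2, List.filterMap_map, List.filterMap_filterMap]
  rfl

/-- composition of rational transductions. `R` is the image of `joint R₁ R₂` under the letter map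
`(a, b) ↦ (a.1 or none, b.2 or none)`. -/
theorem IsRational.comp {τ : Set (List X × List Y)} {ρ : Set (List Y × List Z)}
    (hτ : IsRational τ) (hρ : IsRational ρ) :
    IsRational {p : List X × List Z | ∃ v, (p.1, v) ∈ τ ∧ (v, p.2) ∈ ρ} := by
  obtain ⟨R₁, r1, e1⟩ := hτ
  obtain ⟨R₂, r2, e2⟩ := hρ
  refine ⟨{w | ∃ ζ ∈ joint R₁ R₂, ζ.map Comp_g = w}, regular_map Comp_g (regular_joint r1 r2), ?_⟩
  intro u w
  constructor
  · rintro ⟨v, h1, h2⟩
    obtain ⟨z1, hz1, rfl, rfl⟩ := (e1 u v).1 h1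
    obtain ⟨z2, hz2, h3, rfl⟩ := (e2 _ w).1 h2
    obtain ⟨ζ, g1, rfl, rfl⟩ := interleave z1 z2 h3.symm
    exact ⟨ζ.map Comp_g, ⟨ζ, ⟨g1, hz1, hz2⟩, rfl⟩, Comp_p1 ζ, Comp_p2 ζ⟩
  · rintro ⟨_, ⟨ζ, ⟨g1, hz1, hz2⟩, rfl⟩, h1, h2⟩
    rw [Comp_p1] at h1
    rw [Comp_p2] at h2
    refine ⟨p2 (j1 ζ), (e1 _ _).2 ⟨_, hz1, h1, rfl⟩, (e2 _ _).2 ⟨_, hz2, ?_, h2⟩⟩
    exact (legal_mid ζ g1).symm

end RCone
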