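import Pool.Agent.RC.Full
import Pool.Agent.RC.Skel
/-!
# Cross: the functional of a run depends only on the state at the gap `g`

Let `k = g + r`. `z ∈ R`, `p2 z = expand x y t k`, `t ≥ 1`: cut (`expand_split`,
`List.filterMap_eq_append_iff`) `z = z₁ ++ z₂`, `q = M.eval z₁`, and apply `skel` to `z₁` (from the start)
and to `z₂` (from `q`), with `y i = rep (y' i) N !`, `N = card σ`, exponents `N ! * t i ≥ N`
(`expand_rep`): left families `M.eval (expand U V m g) = q`, right families
`M.evalFrom q (expand U' V' m r) ∈ M.accept`. A left family at `q` and a right family at `q` (possibly from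
different runs, with different `t`, `t'`) glue (`expand_glue`) to a `Full` skeleton, so by
`full_functional` there is `l` with `wt (V i) = dot l (c i)`, `i < g`, `wt (V' i) = dot l (c (g + i))`,
`i < r`. For two runs through `q` the four glueings and `left`, `right` of `GoodCols` show that the
functional (on coordinates `< e`) is the same; call it `Λ q`.
-/
namespace RCone
open List

theorem Cross_resc {α : Type} (x y y' : ℕ → List α) (N n : ℕ) (t : ℕ → ℕ)
    (h : ∀ i < n, y i = rep (y' i) N) :
    expand x y t n = expand x y' (fun i => N * t i) n := by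
  rw [← expand_rep x y' (fun _ => N) t n]
  exact expand_congr (fun _ _ => rfl) (fun i hi => h i hi) (fun _ _ => rfl)

/-- left family at the state `q` -/
def Cross_L {Y σ : Type} (M : DFA (Option (Fin 2) × Option Y) σ) (x y : ℕ → List Y) (g : ℕ) (q : σ)
    (t : ℕ → ℕ) (U V : ℕ → List (Option (Fin 2) × Option Y)) : Prop :=
  ∀ m : ℕ → ℕ, M.eval (expand U V m g) = q ∧
    p2 (expand U V m g) = expand x y (fun i => t i + m i) g

/-- right family at the state `q` -/
def Cross_R {Y σ : Type} (M : DFA (Option (Fin 2) × Option Y) σ) (x y : ℕ → List Y) (g r : ℕ) (q : σ)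
    (t : ℕ → ℕ) (U V : ℕ → List (Option (Fin 2) × Option Y)) : Prop :=
  ∀ m : ℕ → ℕ, M.evalFrom q (expand U V m r) ∈ M.accept ∧
    p2 (expand U V m r) = expand (fun i => if i = 0 then [] else x (g + i)) (fun i => y (g + i))
      (fun i => t (g + i) + m i) r

theorem Cross_key {α : Type} (U V U' V' : ℕ → List α) (m : ℕ → ℕ) (g r : ℕ) :
    expand (glX U U' g) (glY V V' g) m (g + r) =
      expand U V m g ++ expand U' V' (fun i => m (g + i)) r := by
  have hm : glm m (fun i => m (g + i)) g = m := by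
    funext i
    unfold glm
    split_ifs with h
    · rfl
    · show m (g + (i - g)) = m i
      congr 1
      omega
  have h := expand_glue U V U' V' m (fun i => m (g + i)) g r
  rwa [hm] at h

theorem Cross_full {Y σ : Type} {M : DFA (Option (Fin 2) × Option Y) σ} {x y : ℕ → List Y}
    {g r : ℕ} {q : σ} {t t' : ℕ → ℕ} {U V U' V' : ℕ → List (Option (Fin 2) × Option Y)}
    {R : Language (Option (Fin 2) × Option Y)} (hM : M.accepts = R)
    (hL : Cross_L M x y g q t U V) (hR : Cross_R M x y g r q t' U' V') :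
    Full R x y (g + r) (fun i => if i < g then t i else t' i) (glX U U' g) (glY V V' g) := by
  intro m
  rw [Cross_key]
  obtain ⟨h1, h2⟩ := hL m
  obtain ⟨h3, h4⟩ := hR (fun i => m (g + i))
  refine ⟨?_, ?_⟩
  · rw [← hM, DFA.mem_accepts]
    show M.evalFrom M.start _ ∈ M.accept
    rw [DFA.evalFrom_of_append]
    have h5 : M.evalFrom M.start (expand U V m g) = q := h1
    rw [h5]
    exact h3
  · rw [p2_append, h2, h4, expand_split x y _ g r]
    congr 1
    · apply expand_congr (fun _ _ => rfl) (fun _ _ => rfl)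
      intro i hi
      simp only [if_pos hi]
    · apply expand_congr (fun _ _ => rfl) (fun _ _ => rfl)
      intro i _
      have : ¬ (g + i < g) := by omega
      simp only [if_neg this]

/-- the functional `l` belongs to the state `q` -/
def Cross_G {Y σ : Type} (e g r : ℕ) (c : ℕ → ℕ → ℤ) (M : DFA (Option (Fin 2) × Option Y) σ)
    (x y : ℕ → List Y) (q : σ) (l : ℕ → ℤ) : Prop :=
  ∃ (t t' : ℕ → ℕ) (U V U' V' : ℕ → List (Option (Fin 2) × Option Y)),
    Cross_L M x y g q t U V ∧ Cross_R M x y g r q t' U' V' ∧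
    (∀ i < g, wt (V i) = dot e l (c i)) ∧ (∀ i < r, wt (V' i) = dot e l (c (g + i))) ∧
    ∃ b, ∀ x' < e, x' ≠ b → l x' = 0

theorem Cross_ex {Y σ : Type} {e g r : ℕ} {c : ℕ → ℕ → ℤ}
    {R : Language (Option (Fin 2) × Option Y)} {B : Language Y} {x y : ℕ → List Y}
    (C : Ctx e (g + r) g c R B x y) {M : DFA (Option (Fin 2) × Option Y) σ} (hM : M.accepts = R)
    {q : σ} {t t' : ℕ → ℕ} {U V U' V' : ℕ → List (Option (Fin 2) × Option Y)}
    (hL : Cross_L M x y g q t U V) (hR : Cross_R M x y g r q t' U' V') :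
    ∃ l : ℕ → ℤ, (∀ i < g, wt (V i) = dot e l (c i)) ∧ (∀ i < r, wt (V' i) = dot e l (c (g + i))) ∧
      wt (expand U V 0 g ++ expand U' V' 0 r) =
        dot e l (phi (g + r) c (fun i => if i < g then t i else t' i)) ∧
      ∃ b, ∀ x' < e, x' ≠ b → l x' = 0 := by
  obtain ⟨l, h1, h2, h3⟩ := full_functional C (Cross_full hM hL hR)
  refine ⟨l, ?_, ?_, ?_, h3⟩
  · intro i hi
    have := h1 i (by omega)
    rw [← this]
    unfold glY
    rw [if_pos hi]
  · intro i hi
    have := h1 (g + i) (by omega)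
    rw [← this]
    unfold glY
    have hng : ¬ (g + i < g) := by omega
    rw [if_neg hng, Nat.add_sub_cancel_left]
  · rw [← h2, Cross_key]
    rfl

theorem Cross_unique {Y σ : Type} {e g r : ℕ} {c : ℕ → ℕ → ℤ}
    {R : Language (Option (Fin 2) × Option Y)} {B : Language Y} {x y : ℕ → List Y}
    (C : Ctx e (g + r) g c R B x y) {M : DFA (Option (Fin 2) × Option Y) σ} (hM : M.accepts = R)
    {q : σ} {l l' : ℕ → ℤ} (h : Cross_G e g r c M x y q l) (h' : Cross_G e g r c M x y q l') :
    ∀ x' < e, l x' = l' x' := by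
  obtain ⟨t, -, U, V, -, -, hL, -, hl, -, -⟩ := h
  obtain ⟨-, t', -, -, U', V', -, hR, -, hr, -⟩ := h'
  obtain ⟨l₀, h1, h2, -, -⟩ := Cross_ex C hM hL hR
  intro x' hx'
  have e1 : l x' = l₀ x' := by
    apply C.good.left l l₀ _ x' hx'
    intro i hi
    rw [← hl i hi, ← h1 i hi]
  have e2 : l' x' = l₀ x' := by
    apply C.good.right l' l₀ _ x' hx'
    intro i hi hi'
    have h3 := hr (i - g) (by omega)
    have h4 := h2 (i - g) (by omega)
    have h5 : g + (i - g) = i := by omega
    rw [h5] at h3 h4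
    rw [← h3, ← h4]
  rw [e1, e2]

theorem Cross_run {Y σ : Type} [Fintype σ] {e g r : ℕ} {c : ℕ → ℕ → ℤ}
    {R : Language (Option (Fin 2) × Option Y)} {B : Language Y} {x y : ℕ → List Y}
    (C : Ctx e (g + r) g c R B x y) (M : DFA (Option (Fin 2) × Option Y) σ) (hM : M.accepts = R)
    (hy : ∀ i < g + r, ∃ y', y i = rep y' (Fintype.card σ).factorial)
    (t : ℕ → ℕ) (ht : ∀ i < g + r, 1 ≤ t i) (z : List (Option (Fin 2) × Option Y)) (hz : z ∈ R)
    (hzt : p2 z = expand x y t (g + r)) :
    ∃ (q : σ) (l : ℕ → ℤ), Cross_G e g r c M x y q l ∧ wt z = dot e l (phi (g + r) c t) := by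
  have hy2 : ∀ i, ∃ y', i < g + r → y i = rep y' (Fintype.card σ).factorial := by
    intro i
    by_cases hi : i < g + r
    · obtain ⟨y', h⟩ := hy i hi
      exact ⟨y', fun _ => h⟩
    · exact ⟨[], fun h => absurd h hi⟩
  choose y' hy' using hy2
  set N := Fintype.card σ with hN
  have hNf : ∀ i < g + r, N ≤ N.factorial * t i := by
    intro i hi
    calc N ≤ N.factorial := Nat.self_le_factorial N
      _ = N.factorial * 1 := (mul_one _).symm
      _ ≤ N.factorial * t i := Nat.mul_le_mul_left _ (ht i hi)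
  rw [expand_split] at hzt
  have hzt' : z.filterMap Prod.snd = expand x y t g ++
      expand (fun i => if i = 0 then [] else x (g + i)) (fun i => y (g + i)) (fun i => t (g + i)) r :=
    hzt
  rw [List.filterMap_eq_append_iff] at hzt'
  obtain ⟨z₁, z₂, rfl, hz₁, hz₂⟩ := hzt'
  -- the left family
  obtain ⟨U, V, hUV, -, hUVm⟩ := skel M N le_rfl Prod.snd M.start x y' (fun i => N.factorial * t i) g
    (fun i hi => hNf i (by omega)) z₁
    (by rw [hz₁]; exact Cross_resc x y y' _ g t (fun i hi => hy' i (by omega)))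
  have hL : Cross_L M x y g (M.eval z₁) t U V := by
    intro m
    refine ⟨(hUVm m).1, ?_⟩
    have h1 := (hUVm m).2
    rw [Cross_resc x y y' N.factorial g (fun i => t i + m i) (fun i hi => hy' i (by omega))]
    have h2 : (fun i => N.factorial * (t i + m i)) =
        fun i => N.factorial * t i + N.factorial * m i := by
      funext i; ring
    rw [h2]
    exact h1
  -- the right family
  obtain ⟨U', V', hUV', -, hUVm'⟩ := skel M N le_rfl Prod.snd (M.eval z₁)
    (fun i => if i = 0 then [] else x (g + i)) (fun i => y' (g + i))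
    (fun i => N.factorial * t (g + i)) r
    (fun i hi => hNf (g + i) (by omega)) z₂
    (by rw [hz₂]
        exact Cross_resc _ (fun i => y (g + i)) (fun i => y' (g + i)) _ r (fun i => t (g + i))
          (fun i hi => hy' (g + i) (by omega)))
  have hRf : Cross_R M x y g r (M.eval z₁) t U' V' := by
    intro m
    refine ⟨?_, ?_⟩
    · rw [(hUVm' m).1]
      have h1 : M.eval (z₁ ++ z₂) ∈ M.accept := by
        rw [← DFA.mem_accepts, hM]
        exact hz
      have h2 : M.evalFrom M.start (z₁ ++ z₂) = M.evalFrom (M.evalFrom M.start z₁) z₂ :=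
        DFA.evalFrom_of_append M M.start z₁ z₂
      have h3 : M.evalFrom M.start (z₁ ++ z₂) ∈ M.accept := h1
      rw [h2] at h3
      exact h3
    · have h1 := (hUVm' m).2
      rw [Cross_resc (fun i => if i = 0 then [] else x (g + i)) (fun i => y (g + i))
        (fun i => y' (g + i)) N.factorial r (fun i => t (g + i) + m i)
        (fun i hi => hy' (g + i) (by omega))]
      have h2 : (fun i => N.factorial * (t (g + i) + m i)) =
          fun i => N.factorial * t (g + i) + N.factorial * m i := by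
        funext i; ring
      rw [h2]
      exact h1
  obtain ⟨l, h1, h2, h3, h4⟩ := Cross_ex C hM hL hRf
  refine ⟨M.eval z₁, l, ⟨t, t, U, V, U', V', hL, hRf, h1, h2, h4⟩, ?_⟩
  rw [hUV, hUV'] at h3
  rw [h3]
  have h5 : (fun i => if i < g then t i else t i) = t := by
    funext i
    split_ifs <;> rfl
  rw [h5]

theorem cross {Y σ : Type} [Fintype σ] {e k g : ℕ} {c : ℕ → ℕ → ℤ}
    {R : Language (Option (Fin 2) × Option Y)} {B : Language Y} {x y : ℕ → List Y}
    (C : Ctx e k g c R B x y) (M : DFA (Option (Fin 2) × Option Y) σ) (hM : M.accepts = R)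
    (hy : ∀ i < k, ∃ y', y i = rep y' (Fintype.card σ).factorial) :
    ∃ Λ : σ → ℕ → ℤ, (∀ q, ∃ b, ∀ x' < e, x' ≠ b → Λ q x' = 0) ∧
      ∀ t : ℕ → ℕ, (∀ i < k, 1 ≤ t i) → ∀ z ∈ R, p2 z = expand x y t k →
        ∃ q, wt z = dot e (Λ q) (phi k c t) := by
  classical
  obtain ⟨r, rfl⟩ := Nat.exists_eq_add_of_le C.good.hg
  let Λ : σ → ℕ → ℤ := fun q =>
    if h : ∃ l : ℕ → ℤ, Cross_G e g r c M x y q l then h.choose else fun _ => 0
  have hΛ : ∀ q, (∃ l : ℕ → ℤ, Cross_G e g r c M x y q l) → Cross_G e g r c M x y q (Λ q) := by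
    intro q h
    simp only [Λ, dif_pos h]
    exact h.choose_spec
  refine ⟨Λ, ?_, ?_⟩
  · intro q
    by_cases h : ∃ l : ℕ → ℤ, Cross_G e g r c M x y q l
    · obtain ⟨-, -, -, -, -, -, -, -, -, -, hb⟩ := hΛ q h
      exact hb
    · refine ⟨0, fun x' _ _ => ?_⟩
      simp only [Λ, dif_neg h]
  · intro t ht z hz hzt
    obtain ⟨q, l, hG, hw⟩ := Cross_run C M hM hy t ht z hz hzt
    refine ⟨q, ?_⟩
    rw [hw]
    unfold dot
    apply Finset.sum_congr rfl
    intro x' hx'
    rw [Cross_unique C hM hG (hΛ q ⟨l, hG⟩) x' (Finset.mem_range.1 hx')]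

end RCone
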