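import Mathlib

/-!
# Squad RC (MP_6a7e21_lc): definitions

Rational transductions, principal rational cones, the language `Sne = {a^m b^n : m ≠ n}`.
-/

namespace RCone

/-- The first component of a word over `(X ∪ {ε}) × (Y ∪ {ε})`. -/
def p1 {X Y : Type} (z : List (Option X × Option Y)) : List X := z.filterMap Prod.fst

/-- The second component of a word over `(X ∪ {ε}) × (Y ∪ {ε})`. -/
def p2 {X Y : Type} (z : List (Option X × Option Y)) : List Y := z.filterMap Prod.snd

/-- `τ ⊆ X* × Y*` is a rational transduction: it is the set of pairs `(p1 z, p2 z)` where `z` runs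
through a regular language over the alphabet `(X ∪ {ε}) × (Y ∪ {ε})`, i.e. through the label
sequences of the successful paths of a finite transducer. -/
def IsRational {X Y : Type} (τ : Set (List X × List Y)) : Prop :=
  ∃ R : Language (Option X × Option Y), R.IsRegular ∧
    ∀ u w, (u, w) ∈ τ ↔ ∃ z ∈ R, p1 z = u ∧ p2 z = w

/-- The image `τ(L)` of a language under a transduction. -/
def im {X Y : Type} (τ : Set (List X × List Y)) (L : Language X) : Language Y :=
  {w | ∃ u ∈ L, (u, w) ∈ τ}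

/-- The principal rational cone `T(L)`: all images of `L` under rational transductions into words
over the finite alphabets `Fin n`. -/
def T {X : Type} (L : Language X) : Set (Σ n : ℕ, Language (Fin n)) :=
  {K | ∃ τ : Set (List X × List (Fin K.1)), IsRational τ ∧ K.2 = im τ L}

/-- The language `{a^m b^n : m ≠ n}`, with `a = 0` and `b = 1`. -/
def Sne : Language (Fin 2) :=
  {w | ∃ m n : ℕ, m ≠ n ∧ w = List.replicate m 0 ++ List.replicate n 1}

/-! ### Internal notions -/

/-- `u` repeated `n` times. -/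
def rep {α : Type} (u : List α) (n : ℕ) : List α := (List.replicate n u).flatten

/-- `X 0 · (Y 0)^(m 0) · X 1 · (Y 1)^(m 1) ⋯ (Y (n-1))^(m (n-1)) · X n` -/
def expand {α : Type} (X Y : ℕ → List α) (m : ℕ → ℕ) : ℕ → List α
  | 0 => X 0
  | n + 1 => expand X Y m n ++ rep (Y n) (m n) ++ X (n + 1)

/-- number of `a`'s minus number of `b`'s in the first component -/
def wt {Y : Type} (z : List (Option (Fin 2) × Option Y)) : ℤ :=
  ((p1 z).count 0 : ℤ) - ((p1 z).count 1 : ℤ)

/-- `a(0)^(t 0) a(1)^(t 1) ⋯ a(k-1)^(t (k-1))` -/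
def blk {A : Type} (a : ℕ → A) (t : ℕ → ℕ) (k : ℕ) : List A :=
  expand (fun _ => []) (fun i => [a i]) t k

/-- the scalar product of the functional `l` with the `i`-th column -/
def dot (e : ℕ) (l v : ℕ → ℤ) : ℤ := ∑ x ∈ Finset.range e, l x * v x

/-- `∑_{i<k} t_i c_i` -/
def comb (k : ℕ) (c : ℕ → ℕ → ℤ) (t : ℕ → ℕ) (x : ℕ) : ℤ :=
  ∑ i ∈ Finset.range k, (t i : ℤ) * c i x

/-- the letter number `i` of the alphabet `Fin k` -/
def ltr (k : ℕ) [NeZero k] (i : ℕ) : Fin k := Fin.ofNat k i

/-- Complement of the set of words `a_0^{t_0} ⋯ a_{k-1}^{t_{k-1}}` with `∑ t_i c_i = 0` (in `ℤ^e`). -/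
def LV (e k : ℕ) [NeZero k] (c : ℕ → ℕ → ℤ) : Language (Fin k) :=
  {w | ¬ ∃ t : ℕ → ℕ, w = blk (ltr k) t k ∧ ∀ x < e, comb k c t x = 0}

/-- Properties of the columns `c 0, …, c (k-1)` in `ℤ^e` which are used. -/
structure GoodCols (e k g : ℕ) (c : ℕ → ℕ → ℤ) : Prop where
  hg : g ≤ k
  hk : 0 < k
  /-- every row is non-negative, then non-positive -/
  rows : ∀ x < e, ∃ s, (∀ i < s, i < k → 0 ≤ c i x) ∧ (∀ i, s ≤ i → i < k → c i x ≤ 0)
  /-- no non-negative relation with support of size at most two -/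
  nopar : ∀ i < k, ∀ j < k, ∀ p q : ℕ, (∀ x < e, (p : ℤ) * c i x + (q : ℤ) * c j x = 0) →
    p = 0 ∧ q = 0
  /-- the columns generate `ℤ^e` as a monoid -/
  gen : ∀ v : ℕ → ℤ, ∃ m : ℕ → ℕ, ∀ x < e, comb k c m x = v x
  /-- a functional whose values on the columns are non-negative, then non-positive, has at most one
  non-zero coordinate -/
  isol : ∀ l : ℕ → ℤ, (∀ i j, i < j → j < k → ¬ (dot e l (c i) < 0 ∧ 0 < dot e l (c j))) →
    ∃ b, ∀ x < e, x ≠ b → l x = 0
  /-- the columns before `g` determine a functional -/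
  left : ∀ l l' : ℕ → ℤ, (∀ i < g, dot e l (c i) = dot e l' (c i)) → ∀ x < e, l x = l' x
  /-- the columns from `g` on determine a functional -/
  right : ∀ l l' : ℕ → ℤ, (∀ i, g ≤ i → i < k → dot e l (c i) = dot e l' (c i)) →
    ∀ x < e, l x = l' x
  /-- two columns which are opposite outside the coordinate `a` -/
  pair : ∀ a < e, ∃ i j, i < j ∧ j < k ∧ (∀ x < e, c i x = 1 + if x = a then 1 else 0) ∧
    (∀ x < e, c j x = -1)

end RCone
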