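import Pool.Agent.RC.Defs
/-!
# Lin: a functional vanishing on the relations factors through the columns

Take `m_x`, `m'_x` with `comb m_x = u_x`, `comb m'_x = -u_x`, `l x = ∑ m_x(i) κ_i`; for two solutions `m`,
`m'` of `v0 + comb = 0` the values agree; adding `m_x + m'_x` shows `∑ m'_x(i) κ_i = - l x`; for the column
`i` add `e_i + ∑_x (c_i(x)^+ m'_x + c_i(x)^- m_x)`.
-/
namespace RCone

theorem lin (e k : ℕ) (c : ℕ → ℕ → ℤ)
    (gen : ∀ v : ℕ → ℤ, ∃ m : ℕ → ℕ, ∀ x < e, comb k c m x = v x)
    (κ : ℕ → ℤ) (b0 : ℤ) (v0 : ℕ → ℤ)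
    (h : ∀ m : ℕ → ℕ, (∀ x < e, v0 x + comb k c m x = 0) →
      b0 + ∑ i ∈ Finset.range k, (m i : ℤ) * κ i = 0) :
    ∃ l : ℕ → ℤ, (∀ i < k, κ i = dot e l (c i)) ∧ b0 = dot e l v0 := by
  -- integer relations are annihilated by `κ`
  have kz : ∀ z : ℕ → ℤ, (∀ x < e, ∑ i ∈ Finset.range k, z i * c i x = 0) →
      ∑ i ∈ Finset.range k, z i * κ i = 0 := by
    intro z hz
    obtain ⟨m0, hm0⟩ := gen (fun x => - v0 x - comb k c (fun i => (- z i).toNat) x)
    have h1 := h (fun i => m0 i + (- z i).toNat) (by
      intro x hx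
      have := hm0 x hx
      simp only [comb] at this ⊢
      push_cast
      simp only [add_mul, Finset.sum_add_distrib]
      linarith)
    have h2 := h (fun i => m0 i + (z i).toNat) (by
      intro x hx
      have h3 := hm0 x hx
      have h4 : ∑ i ∈ Finset.range k, (((z i).toNat : ℤ)) * c i x =
          ∑ i ∈ Finset.range k, (((- z i).toNat : ℤ)) * c i x := by
        rw [← sub_eq_zero, ← Finset.sum_sub_distrib, ← hz x hx]
        refine Finset.sum_congr rfl fun i _ => ?_
        rw [← sub_mul, Int.toNat_sub_toNat_neg]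
      simp only [comb] at h3 ⊢
      push_cast at h3 h4 ⊢
      simp only [add_mul, Finset.sum_add_distrib]
      linarith)
    have h5 : ∑ i ∈ Finset.range k, z i * κ i =
        ∑ i ∈ Finset.range k, (((z i).toNat : ℤ)) * κ i -
          ∑ i ∈ Finset.range k, (((- z i).toNat : ℤ)) * κ i := by
      rw [← Finset.sum_sub_distrib]
      refine Finset.sum_congr rfl fun i _ => ?_
      rw [← sub_mul, Int.toNat_sub_toNat_neg]
    rw [h5]
    push_cast at h1 h2 ⊢
    simp only [add_mul, Finset.sum_add_distrib] at h1 h2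
    linarith
  choose m hm using gen
  set u : ℕ → ℕ → ℤ := fun x y => if y = x then 1 else 0 with hu
  refine ⟨fun x => ∑ i ∈ Finset.range k, (m (u x) i : ℤ) * κ i, ?_⟩
  have key : ∀ z : ℕ → ℤ, ∑ i ∈ Finset.range k, z i * κ i =
      ∑ x ∈ Finset.range e, (∑ i ∈ Finset.range k, (m (u x) i : ℤ) * κ i) *
        (∑ i ∈ Finset.range k, z i * c i x) := by
    intro z
    have h1 := kz (fun i => z i - ∑ x ∈ Finset.range e,
      (∑ j ∈ Finset.range k, z j * c j x) * (m (u x) i : ℤ)) (by
      intro y hy
      simp only [sub_mul, Finset.sum_sub_distrib, Finset.sum_mul]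
      rw [Finset.sum_comm (s := Finset.range k) (t := Finset.range e)]
      have h2 : ∀ x ∈ Finset.range e, ∑ i ∈ Finset.range k, ∑ j ∈ Finset.range k,
          z j * c j x * (m (u x) i : ℤ) * c i y =
          (if y = x then 1 else 0) * ∑ j ∈ Finset.range k, z j * c j x := by
        intro x _
        have h3 := hm (u x) y hy
        simp only [comb, hu] at h3
        rw [← h3, Finset.sum_mul]
        refine Finset.sum_congr rfl fun i _ => ?_
        rw [Finset.mul_sum]
        refine Finset.sum_congr rfl fun j _ => ?_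
        ring
      rw [Finset.sum_congr rfl h2]
      simp only [ite_mul, one_mul, zero_mul, Finset.sum_ite_eq, Finset.mem_range]
      rw [if_pos hy, sub_self])
    simp only [sub_mul, Finset.sum_sub_distrib] at h1
    rw [sub_eq_zero] at h1
    rw [h1]
    simp only [Finset.sum_mul, Finset.mul_sum]
    rw [Finset.sum_comm]
    refine Finset.sum_congr rfl fun x _ => ?_
    rw [Finset.sum_comm]
    refine Finset.sum_congr rfl fun j _ => ?_
    refine Finset.sum_congr rfl fun i _ => ?_
    ring
  refine ⟨?_, ?_⟩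
  · intro i hi
    have h1 := key (fun j => if j = i then 1 else 0)
    simp only [ite_mul, one_mul, zero_mul, Finset.sum_ite_eq', Finset.mem_range, if_pos hi] at h1
    rw [h1]
    rfl
  · have h1 := h (m (fun x => - v0 x)) (by
      intro x hx
      rw [hm _ x hx]
      ring)
    have h2 := key (fun i => (m (fun x => - v0 x) i : ℤ))
    rw [h2] at h1
    have h3 : ∀ x ∈ Finset.range e, (∑ i ∈ Finset.range k, (m (u x) i : ℤ) * κ i) *
        (∑ i ∈ Finset.range k, (m (fun x => - v0 x) i : ℤ) * c i x) =
        - ((∑ i ∈ Finset.range k, (m (u x) i : ℤ) * κ i) * v0 x) := by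
      intro x hx
      have h4 := hm (fun x => - v0 x) x (Finset.mem_range.1 hx)
      simp only [comb] at h4
      rw [h4]
      ring
    rw [Finset.sum_congr rfl h3, Finset.sum_neg_distrib] at h1
    simp only [dot]
    linarith

end RCone
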