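import Pool.Agent.RC.Words
import Pool.Agent.RC.Lin
/-!
# Full: skeletons of complete runs

`Ctx` collects the situation: `B = {p2 z : z ∈ R, wt z ≠ 0}`, words `x, y` with
`expand x y t k ∉ B` whenever `phi t = c_0 + ∑ t_i c_i = 0`.

`full_functional`: for all `m` with `phi (t + m) = 0` the run `expand U V m k` has weight `0`
(otherwise `expand x y (t + m) k ∈ B`); by `wt_expand` and `lin` (with `κ i = wt (V i)`,
`b0 = wt (expand U V 0 k)`, `v0 = phi t`) there is `l`. If `i < j`, `wt (V i) < 0 < wt (V j)` then `p1 (V i)`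
contains the letter `1`, `p1 (V j)` the letter `0`, and with `expand_order` the word
`p1 (expand U V 1 k) = 0^m 1^n` would contain `1` before `0`: so `isol` applies.
-/
namespace RCone
open List

/-- `c_0 + ∑ t_i c_i` -/
def phi (k : ℕ) (c : ℕ → ℕ → ℤ) (t : ℕ → ℕ) (x : ℕ) : ℤ := c 0 x + comb k c t x

structure Ctx {Y : Type} (e k g : ℕ) (c : ℕ → ℕ → ℤ) (R : Language (Option (Fin 2) × Option Y))
    (B : Language Y) (x y : ℕ → List Y) : Prop where
  good : GoodCols e k g c
  shape : ∀ z ∈ R, ∃ m n : ℕ, p1 z = List.replicate m 0 ++ List.replicate n 1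
  hB : ∀ w, w ∈ B ↔ ∃ z ∈ R, wt z ≠ 0 ∧ p2 z = w
  alpha : ∀ t : ℕ → ℕ, (∀ x' < e, phi k c t x' = 0) → expand x y t k ∉ B

/-- the words `expand U V m k` are runs on `expand x y (t + m) k` -/
def Full {Y : Type} (R : Language (Option (Fin 2) × Option Y)) (x y : ℕ → List Y) (k : ℕ)
    (t : ℕ → ℕ) (U V : ℕ → List (Option (Fin 2) × Option Y)) : Prop :=
  ∀ m : ℕ → ℕ, expand U V m k ∈ R ∧ p2 (expand U V m k) = expand x y (fun i => t i + m i) k

theorem comb_add (k : ℕ) (c : ℕ → ℕ → ℤ) (t m : ℕ → ℕ) (x : ℕ) :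
    comb k c (fun i => t i + m i) x = comb k c t x + comb k c m x := by
  simp only [comb]
  rw [← Finset.sum_add_distrib]
  refine Finset.sum_congr rfl fun i _ => ?_
  push_cast; ring

theorem phi_add (k : ℕ) (c : ℕ → ℕ → ℤ) (t m : ℕ → ℕ) (x : ℕ) :
    phi k c (fun i => t i + m i) x = phi k c t x + comb k c m x := by
  simp only [phi, comb_add]; ring

/-- no `1` before a `0` in `0^a 1^b` -/
theorem not_one_zero {a b : ℕ} {A V1 B V2 C : List (Fin 2)}
    (h : A ++ V1 ++ B ++ V2 ++ C = List.replicate a 0 ++ List.replicate b 1)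
    (h1 : (1 : Fin 2) ∈ V1) (h2 : (0 : Fin 2) ∈ V2) : False := by
  have hsub : [(1 : Fin 2), 0] <+ List.replicate a (0 : Fin 2) ++ List.replicate b 1 := by
    rw [← h]
    have e1 : [(1 : Fin 2)] <+ V1 := List.singleton_sublist.2 h1
    have e2 : [(0 : Fin 2)] <+ V2 := List.singleton_sublist.2 h2
    have e3 : [(1 : Fin 2)] ++ [0] <+ V1 ++ (B ++ V2) :=
      e1.append (e2.trans (List.sublist_append_right _ _))
    have e4 : V1 ++ (B ++ V2) <+ A ++ V1 ++ B ++ V2 ++ C := by
      have : V1 ++ (B ++ V2) <+ V1 ++ (B ++ V2) ++ C := List.sublist_append_left _ _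
      have := this.trans (List.sublist_append_right A _)
      simpa only [List.append_assoc] using this
    exact e3.trans e4
  have hpw : (List.replicate a (0 : Fin 2) ++ List.replicate b 1).Pairwise (· ≤ ·) := by
    rw [List.pairwise_append]
    refine ⟨List.pairwise_replicate.2 (Or.inr le_rfl), List.pairwise_replicate.2 (Or.inr le_rfl), ?_⟩
    intro p hp q hq
    rw [List.eq_of_mem_replicate hp]
    exact Fin.zero_le _
  have := hpw.sublist hsub
  simp at this

theorem full_functional {Y : Type} {e k g : ℕ} {c : ℕ → ℕ → ℤ}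
    {R : Language (Option (Fin 2) × Option Y)} {B : Language Y} {x y : ℕ → List Y}
    (C : Ctx e k g c R B x y) {t : ℕ → ℕ} {U V : ℕ → List (Option (Fin 2) × Option Y)}
    (h : Full R x y k t U V) :
    ∃ l : ℕ → ℤ, (∀ i < k, wt (V i) = dot e l (c i)) ∧
      wt (expand U V 0 k) = dot e l (phi k c t) ∧ ∃ b, ∀ x' < e, x' ≠ b → l x' = 0 := by
  obtain ⟨l, hl1, hl2⟩ := lin e k c C.good.gen (fun i => wt (V i)) (wt (expand U V 0 k))
    (phi k c t) (by
      intro m hm
      by_contra hne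
      obtain ⟨hR, hp⟩ := h m
      have hwt : wt (expand U V m k) ≠ 0 := by rwa [wt_expand]
      refine C.alpha (fun i => t i + m i) (fun x' hx' => ?_) ?_
      · rw [phi_add]; exact hm x' hx'
      · exact (C.hB _).2 ⟨_, hR, hwt, hp⟩)
  refine ⟨l, hl1, hl2, C.good.isol l ?_⟩
  intro i j hij hjk ⟨hi, hj⟩
  rw [← hl1 i (hij.trans hjk)] at hi
  rw [← hl1 j hjk] at hj
  obtain ⟨hR, -⟩ := h (fun _ => 1)
  obtain ⟨a, b, hab⟩ := C.shape _ hR
  obtain ⟨P, Q, S, hPQS⟩ := expand_order U V (fun _ => 1) hij hjk le_rfl le_rfl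
  rw [hPQS] at hab
  simp only [p1_append] at hab
  refine not_one_zero hab ?_ ?_
  · by_contra h1
    have h0 : (p1 (V i)).count 1 = 0 := List.count_eq_zero.2 h1
    have hi' : ((p1 (V i)).count 0 : ℤ) - ((p1 (V i)).count 1 : ℤ) < 0 := hi
    rw [h0] at hi'
    have : (0 : ℤ) ≤ ((p1 (V i)).count 0 : ℤ) := Int.natCast_nonneg _
    push_cast at hi'
    omega
  · by_contra h1
    have h0 : (p1 (V j)).count 0 = 0 := List.count_eq_zero.2 h1
    have hj' : 0 < ((p1 (V j)).count 0 : ℤ) - ((p1 (V j)).count 1 : ℤ) := hj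
    rw [h0] at hj'
    have : (0 : ℤ) ≤ ((p1 (V j)).count 1 : ℤ) := Int.natCast_nonneg _
    push_cast at hj'
    omega

end RCone
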