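import Pool.Agent.RC.Reg
/-!
# Norm: normal form of the languages in `T(Sne)`

Intersect `R` with the inverse image of the regular language `0^* 1^*` (`regular_preimage`,
`regular_expand`).
-/
namespace RCone
open List

theorem wt_shape {Y : Type} {z : List (Option (Fin 2) × Option Y)} {m n : ℕ}
    (h : p1 z = List.replicate m 0 ++ List.replicate n 1) : wt z = (m : ℤ) - n := by
  rw [wt, h, List.count_append, List.count_append, List.count_replicate, List.count_replicate,
    List.count_replicate, List.count_replicate]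
  simp

theorem norm_Sne {Y : Type} {τ : Set (List (Fin 2) × List Y)} (hτ : IsRational τ) :
    ∃ R : Language (Option (Fin 2) × Option Y), R.IsRegular ∧
      (∀ z ∈ R, ∃ m n : ℕ, p1 z = List.replicate m 0 ++ List.replicate n 1) ∧
      ∀ w, w ∈ im τ Sne ↔ ∃ z ∈ R, wt z ≠ 0 ∧ p2 z = w := by
  obtain ⟨R0, hR0, hτ0⟩ := hτ
  have hexp : ∀ t : ℕ → ℕ, expand (fun _ => []) (fun i => if i = 0 then [(0 : Fin 2)] else [1]) t 2
      = List.replicate (t 0) 0 ++ List.replicate (t 1) 1 := by
    intro t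
    simp [expand, rep_singleton]
  let L01 : Language (Fin 2) :=
    {w | ∃ t : ℕ → ℕ, w = expand (fun _ => []) (fun i => if i = 0 then [(0 : Fin 2)] else [1]) t 2}
  have hreg : Language.IsRegular (T := Option (Fin 2) × Option Y)
      {z | z.filterMap Prod.fst ∈ L01} := regular_preimage _ (regular_expand _ _ _)
  refine ⟨R0 ⊓ {z | z.filterMap Prod.fst ∈ L01}, hR0.inf hreg, ?_, ?_⟩
  · rintro z ⟨-, t, ht⟩
    exact ⟨t 0, t 1, by rw [← hexp]; exact ht⟩
  · intro w
    constructor
    · rintro ⟨u, ⟨m, n, hmn, rfl⟩, huw⟩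
      obtain ⟨z, hz, h1, h2⟩ := (hτ0 _ _).1 huw
      refine ⟨z, ⟨hz, fun i => if i = 0 then m else n, ?_⟩, ?_, h2⟩
      · rw [hexp]; simpa [p1] using h1
      · rw [wt_shape h1]; omega
    · rintro ⟨z, ⟨hz, t, ht⟩, hwt, h2⟩
      have h1 : p1 z = List.replicate (t 0) 0 ++ List.replicate (t 1) 1 := by
        rw [← hexp]; exact ht
      rw [wt_shape h1] at hwt
      exact ⟨p1 z, ⟨t 0, t 1, by omega, h1⟩, (hτ0 _ _).2 ⟨z, hz, rfl, h2⟩⟩

end RCone
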