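import Pool.Agent.RC.LBfin
import Pool.Agent.RC.Norm
import Pool.Agent.RC.CP
import Pool.Agent.RC.Blk
/-!
# LB: the lower bound

Let `R` be given by `norm_Sne` for `τ`, `M` a DFA for `R` with state set `σ`; claim for all
`e ≥ N := card σ + 1`. Suppose `im ρ (im τ Sne) = LV e k c`. Take `K`, `s` from `common_path` (with `card σ`
for `N`), `a = ltr k`, and `n i = n₀ i + s * (if i = 0 then 1 else 0)`, where `n₀ i ≥ K`, `comb n₀ = 0`
(`gen`). Then `comb n = s • c_0` is not zero (`nopar` with `i = j = 0`), so `blk a n k ∈ LV` (`blk_inj`), so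
there is `z ∈ R`, `wt z ≠ 0`, `(p2 z, blk a n k) ∈ ρ`. `common_path` gives `U, V`; put `x i = p2 (U i)`,
`y i = p2 (V i)` (`p2_expand`). `alpha`: if `phi t = 0` then `comb (n + s t) = s • phi t = 0`, so
`blk a (n + s t) k ∉ LV`, so `expand x y t k = p2 (expand U V t k) ∉ im τ Sne`. So `Ctx` holds, and
`Full R x y k 0 U V`; apply `lb_finish`.
-/
namespace RCone
open List

theorem LB_comb_smul (k : ℕ) (c : ℕ → ℕ → ℤ) (s : ℕ) (t : ℕ → ℕ) (x : ℕ) :
    comb k c (fun i => s * t i) x = s * comb k c t x := by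
  unfold comb
  rw [Finset.mul_sum]
  refine Finset.sum_congr rfl fun i _ => ?_
  push_cast
  ring

theorem LB_comb_congr (k : ℕ) (c : ℕ → ℕ → ℤ) {t t' : ℕ → ℕ} (h : ∀ i < k, t i = t' i) (x : ℕ) :
    comb k c t x = comb k c t' x := by
  unfold comb
  refine Finset.sum_congr rfl fun i hi => ?_
  rw [h i (Finset.mem_range.1 hi)]

theorem lower_bound {Y : Type} {τ : Set (List (Fin 2) × List Y)} (hτ : IsRational τ) :
    ∃ N : ℕ, ∀ (e k g : ℕ) (c : ℕ → ℕ → ℤ) [NeZero k], N ≤ e → GoodCols e k g c →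
      ∀ ρ : Set (List Y × List (Fin k)), IsRational ρ → im ρ (im τ Sne) = LV e k c →
      ∃ π : Set (List Y × List (Fin 2)), IsRational π ∧ im π (im τ Sne) = Sne := by
  obtain ⟨R, hR, hshape, hB⟩ := norm_Sne hτ
  have hR' := hR
  obtain ⟨σ, _, M, hM⟩ := hR'
  refine ⟨Fintype.card σ + 1, fun e k g c _ hNe hgood ρ hρ hLV => ?_⟩
  obtain ⟨K, s, hs, H⟩ := common_path hR (Fintype.card σ) hρ k
  have hk : 0 < k := hgood.hk
  obtain ⟨m0, hm0⟩ := hgood.gen (fun x => - comb k c (fun _ => K) x)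
  set n : ℕ → ℕ := fun i => (m0 i + K) + s * (if i = 0 then 1 else 0) with hn
  have hcomb : ∀ x < e, comb k c n x = s * c 0 x := by
    intro x hx
    rw [hn, LBfin_comb_add k c (fun i => m0 i + K) (fun i => s * (if i = 0 then 1 else 0)) x,
      LBfin_comb_add k c m0 (fun _ => K) x, hm0 x hx, LB_comb_smul,
      LBfin_comb_single k c 1 0 hk x]
    push_cast
    ring
  have hmem : blk (ltr k) n k ∈ LV e k c := by
    show ¬ ∃ t : ℕ → ℕ, blk (ltr k) n k = blk (ltr k) t k ∧ ∀ x < e, comb k c t x = 0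
    rintro ⟨t, ht1, ht2⟩
    have h1 := blk_inj k ht1
    have h2 := hgood.nopar 0 hk 0 hk s 0 (fun x hx => by
      have h3 := ht2 x hx
      rw [← LB_comb_congr k c h1 x, hcomb x hx] at h3
      rw [h3]
      simp)
    omega
  rw [← hLV] at hmem
  obtain ⟨w, hw, hwρ⟩ := hmem
  obtain ⟨z, hzR, hz0, hzw⟩ := (hB w).1 hw
  rw [← hzw] at hwρ
  obtain ⟨U, V, hUV0, hUVy, hUV⟩ := H (ltr k) n (fun i _ => by
    show K ≤ (m0 i + K) + _
    omega) z hzR hwρ
  have hp2 : ∀ m, p2 (expand U V m k) = expand (fun i => p2 (U i)) (fun i => p2 (V i)) m k :=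
    fun m => p2_expand U V m k
  have hctx : Ctx e k g c R (im τ Sne) (fun i => p2 (U i)) (fun i => p2 (V i)) := by
    refine ⟨hgood, hshape, hB, fun t ht hmem => ?_⟩
    have h1 := (hUV t).2
    rw [hp2] at h1
    have h2 : blk (ltr k) (fun i => n i + s * t i) k ∈ im ρ (im τ Sne) := ⟨_, hmem, h1⟩
    rw [hLV] at h2
    apply h2
    refine ⟨_, rfl, fun x hx => ?_⟩
    rw [LBfin_comb_add k c n (fun i => s * t i) x, hcomb x hx, LB_comb_smul]
    have h3 := ht x hx
    unfold phi at h3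
    have : (s : ℤ) * c 0 x + s * comb k c t x = s * (c 0 x + comb k c t x) := by ring
    rw [this, h3, mul_zero]
  have hfull : Full R (fun i => p2 (U i)) (fun i => p2 (V i)) k (fun _ => 0) U V := by
    intro m
    refine ⟨(hUV m).1, ?_⟩
    rw [hp2]
    congr 1
    funext i
    simp
  refine lb_finish hctx M hM (fun i hi => hUVy i hi) (by omega) hfull ?_
  rw [hUV0]
  exact hz0

end RCone
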