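import Pool.Agent.RC.Cross
import Pool.Agent.RC.Pattern
/-!
# LBfin: end of the lower bound

`full_functional` gives `l0` with `wt (expand U V m k) = dot l0 (phi m)` (`wt_expand`), with at most one
non-zero coordinate `b0`, and `dot l0 (phi 0) = wt (expand U V 0 k) ≠ 0`. `cross` gives `Λ`; as
`card σ < e` there is `a0 < e` with `Λ q a0 = 0` for all `q`. Choose `t ≥ 1` with `phi t = u_{a0}` (`gen`; take
`m + 1`): the run `expand U V t k` gives `l0 a0 = dot l0 (phi t) = dot (Λ q) (phi t) = Λ q a0 = 0`; so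
`b0 ≠ a0`, `b0 < e`, `l0 b0 ≠ 0`. Take `i < j` from `pair a0`, `t ≥ 1` with `phi t = 0`, and `expand_two`: the
words `W t1 t2 = expand x y (t + t1 e_i + t2 e_j) k` have `phi = (t1 - t2) 𝟙 + t1 u_{a0}`; if `t1 = t2` every
run `z` on it has `wt z = dot (Λ q) (t1 u_{a0}) = 0`; if `t1 ≠ t2` the run `expand U V (..) k` has weight
`(t1 - t2) l0 b0 ≠ 0`. So `W t1 t2 ∈ B ↔ t1 ≠ t2` (`C.hB`) and `pattern` applies.
-/
namespace RCone
open List

theorem LBfin_dot_phi (e k : ℕ) (c : ℕ → ℕ → ℤ) (l : ℕ → ℤ) (t : ℕ → ℕ) :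
    dot e l (phi k c t) = dot e l (c 0) + ∑ i ∈ Finset.range k, (t i : ℤ) * dot e l (c i) := by
  unfold dot phi comb
  have h1 : ∀ x, l x * (c 0 x + ∑ i ∈ Finset.range k, (t i : ℤ) * c i x) =
      l x * c 0 x + ∑ i ∈ Finset.range k, (t i : ℤ) * (l x * c i x) := by
    intro x
    rw [mul_add, Finset.mul_sum]
    congr 1
    refine Finset.sum_congr rfl fun i _ => ?_
    ring
  simp only [h1, Finset.sum_add_distrib, Finset.mul_sum]
  congr 1
  exact Finset.sum_comm

theorem LBfin_comb_add (k : ℕ) (c : ℕ → ℕ → ℤ) (s t : ℕ → ℕ) (x : ℕ) :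
    comb k c (fun i => s i + t i) x = comb k c s x + comb k c t x := by
  unfold comb
  rw [← Finset.sum_add_distrib]
  refine Finset.sum_congr rfl fun i _ => ?_
  push_cast
  ring

theorem LBfin_comb_single (k : ℕ) (c : ℕ → ℕ → ℤ) (t i : ℕ) (hi : i < k) (x : ℕ) :
    comb k c (fun l => if l = i then t else 0) x = t * c i x := by
  unfold comb
  rw [Finset.sum_eq_single i]
  · simp
  · intro b _ hb
    simp [hb]
  · intro h
    exact absurd (Finset.mem_range.2 hi) h

theorem LBfin_dot_congr (e : ℕ) (l v v' : ℕ → ℤ) (h : ∀ x < e, v x = v' x) :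
    dot e l v = dot e l v' := by
  unfold dot
  refine Finset.sum_congr rfl fun x hx => ?_
  rw [h x (Finset.mem_range.1 hx)]

theorem LBfin_dot_single (e : ℕ) (l v : ℕ → ℤ) (b : ℕ) (hb : b < e)
    (h : ∀ x < e, x ≠ b → l x * v x = 0) : dot e l v = l b * v b := by
  unfold dot
  rw [Finset.sum_eq_single b]
  · intro x hx hxb
    exact h x (Finset.mem_range.1 hx) hxb
  · intro h'
    exact absurd (Finset.mem_range.2 hb) h'

theorem LBfin_wt {Y : Type} {e k : ℕ} {c : ℕ → ℕ → ℤ} {U V : ℕ → List (Option (Fin 2) × Option Y)}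
    {l0 : ℕ → ℤ} (h1 : ∀ i < k, wt (V i) = dot e l0 (c i))
    (h2 : wt (expand U V 0 k) = dot e l0 (phi k c (fun _ => 0))) (m : ℕ → ℕ) :
    wt (expand U V m k) = dot e l0 (phi k c m) := by
  rw [wt_expand, h2, LBfin_dot_phi, LBfin_dot_phi]
  simp only [Nat.cast_zero, zero_mul, Finset.sum_const_zero, add_zero]
  congr 1
  refine Finset.sum_congr rfl fun i hi => ?_
  rw [h1 i (Finset.mem_range.1 hi)]

/-- exponents `≥ 1` with a prescribed value of `phi` -/
theorem LBfin_gen {e k g : ℕ} {c : ℕ → ℕ → ℤ} (hg : GoodCols e k g c) (v : ℕ → ℤ) :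
    ∃ t : ℕ → ℕ, (∀ i, 1 ≤ t i) ∧ ∀ x < e, phi k c t x = v x := by
  obtain ⟨m, hm⟩ := hg.gen (fun x => v x - c 0 x - comb k c (fun _ => 1) x)
  refine ⟨fun i => m i + 1, fun i => Nat.le_add_left _ _, fun x hx => ?_⟩
  unfold phi
  rw [LBfin_comb_add k c m (fun _ => 1) x, hm x hx]
  ring

theorem lb_finish {Y σ : Type} [Fintype σ] {e k g : ℕ} {c : ℕ → ℕ → ℤ}
    {R : Language (Option (Fin 2) × Option Y)} {B : Language Y} {x y : ℕ → List Y}
    (C : Ctx e k g c R B x y) (M : DFA (Option (Fin 2) × Option Y) σ) (hM : M.accepts = R)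
    (hy : ∀ i < k, ∃ y', y i = rep y' (Fintype.card σ).factorial) (hN : Fintype.card σ < e)
    {U V : ℕ → List (Option (Fin 2) × Option Y)} (hF : Full R x y k (fun _ => 0) U V)
    (h0 : wt (expand U V 0 k) ≠ 0) :
    ∃ π : Set (List Y × List (Fin 2)), IsRational π ∧ im π B = Sne := by
  classical
  obtain ⟨l0, hl1, hl2, b1, hb1⟩ := full_functional C hF
  obtain ⟨Λ, hΛ, hcr⟩ := cross C M hM hy
  choose β hβ using hΛ
  -- a coordinate missed by all `β q`
  obtain ⟨a0, ha0, ha0'⟩ : ∃ a0 < e, ∀ q, β q ≠ a0 := by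
    by_contra hcon
    push Not at hcon
    have hsub : Finset.range e ⊆ Finset.univ.image β := by
      intro a ha
      obtain ⟨q, hq⟩ := hcon a (Finset.mem_range.1 ha)
      exact Finset.mem_image.2 ⟨q, Finset.mem_univ _, hq⟩
    have h1 := Finset.card_le_card hsub
    rw [Finset.card_range] at h1
    have h2 : (Finset.univ.image β).card ≤ Fintype.card σ := Finset.card_image_le
    omega
  have hΛ0 : ∀ q, Λ q a0 = 0 := fun q => hβ q a0 ha0 (ha0' q).symm
  have hrun : ∀ t : ℕ → ℕ, expand U V t k ∈ R ∧ p2 (expand U V t k) = expand x y t k := by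
    intro t
    have h := hF t
    refine ⟨h.1, ?_⟩
    rw [h.2]
    congr 1
    funext i
    simp
  have hwt := LBfin_wt hl1 hl2
  -- `l0 a0 = 0`
  have hl0a0 : l0 a0 = 0 := by
    obtain ⟨t, ht1, ht⟩ := LBfin_gen C.good (fun x => if x = a0 then 1 else 0)
    obtain ⟨q, hq⟩ := hcr t (fun i _ => ht1 i) _ (hrun t).1 (hrun t).2
    have hsing : ∀ l : ℕ → ℤ, dot e l (phi k c t) = l a0 := by
      intro l
      rw [LBfin_dot_congr e l _ _ ht, LBfin_dot_single e l _ a0 ha0]
      · simp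
      · intro x _ hxa
        simp [hxa]
    rw [hwt, hsing, hsing, hΛ0] at hq
    exact hq
  -- the coordinate `b0`
  obtain ⟨b0, hb0, hb0'⟩ : ∃ b0 < e, l0 b0 ≠ 0 := by
    by_contra hcon
    push Not at hcon
    apply h0
    rw [hl2]
    unfold dot
    refine Finset.sum_eq_zero fun x hx => ?_
    rw [hcon x (Finset.mem_range.1 hx), zero_mul]
  have hb01 : b0 = b1 := by
    by_contra hne
    exact hb0' (hb1 b0 hb0 hne)
  subst hb01
  have hba : b0 ≠ a0 := by
    intro h
    rw [h] at hb0'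
    exact hb0' hl0a0
  obtain ⟨i, j, hij, hjk, hci, hcj⟩ := C.good.pair a0 ha0
  obtain ⟨t, ht1, ht⟩ := LBfin_gen C.good (fun _ => 0)
  obtain ⟨U0, U1, U2, hU⟩ := expand_two x y t hij hjk
  refine pattern B U0 (y i) U1 (y j) U2 fun t1 t2 => ?_
  rw [← hU t1 t2, C.hB]
  set T : ℕ → ℕ := fun l => t l + (if l = i then t1 else 0) + (if l = j then t2 else 0) with hT
  have hphi : ∀ x < e, phi k c T x = t1 * (1 + if x = a0 then 1 else 0) - t2 := by
    intro x' hx
    have h1 : comb k c T x' = comb k c t x' + t1 * c i x' + t2 * c j x' := by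
      rw [hT, LBfin_comb_add k c (fun l => t l + (if l = i then t1 else 0))
        (fun l => if l = j then t2 else 0) x',
        LBfin_comb_add k c t (fun l => if l = i then t1 else 0) x',
        LBfin_comb_single k c t1 i (by omega), LBfin_comb_single k c t2 j hjk]
    have h2 := ht x' hx
    unfold phi at h2 ⊢
    rw [h1, hci x' hx, hcj x' hx]
    linarith
  constructor
  · rintro ⟨z, hzR, hz0, hz2⟩ heq
    obtain ⟨q, hq⟩ := hcr T (fun l _ => by
      have := ht1 l
      show 1 ≤ t l + _ + _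
      omega) z hzR hz2
    apply hz0
    rw [hq]
    unfold dot
    refine Finset.sum_eq_zero fun x' hx => ?_
    rw [hphi x' (Finset.mem_range.1 hx)]
    by_cases hxa : x' = a0
    · rw [hxa, hΛ0, zero_mul]
    · rw [if_neg hxa, heq]
      ring
  · intro hne
    refine ⟨expand U V T k, (hrun T).1, ?_, (hrun T).2⟩
    rw [hwt, LBfin_dot_single e l0 _ b0 hb0, hphi b0 hb0, if_neg hba]
    · have : (t1 : ℤ) * (1 + 0) - t2 ≠ 0 := by
        intro h
        apply hne
        have : (t1 : ℤ) = t2 := by linarith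
        exact_mod_cast this
      exact mul_ne_zero hb0' this
    · intro x' hx hxb
      rw [hb1 x' hx hxb, zero_mul]

end RCone
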