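import Pool.Agent.RC.Cone
/-!
# LVmem: `LV ∈ T(Sne)`

The transduction is a finite union: `{(0, w) : w not of the form blk (ltr k) t k}` (the complement of a
regular language), and for each `x < e`
`{(0^{P(t)} 1^{N(t)}, blk (ltr k) t k)}`, `P(t) = ∑_{i<s} c_i(x) t_i`, `N(t) = ∑_{s≤i} -c_i(x) t_i`: words
`expand (fun _ => []) V t k`, `V i` = the letter `(none, some (ltr k i))` followed by `|c_i(x)|` letters
`(some 0, none)` resp. `(some 1, none)` (`regular_expand`).
-/
namespace RCone
open List

theorem LVmem_prod {X Y : Type} (u0 : List X) {M : Language Y} (hM : M.IsRegular) :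
    IsRational {p : List X × List Y | p.1 = u0 ∧ p.2 ∈ M} := by
  refine ⟨({z | z.filterMap Prod.fst ∈ ({u0} : Language X)} : Language (Option X × Option Y)) ⊓
    ({z | z.filterMap Prod.snd ∈ M} : Language (Option X × Option Y)),
    (regular_preimage _ (regular_singleton u0)).inf (regular_preimage _ hM), ?_⟩
  intro u w
  constructor
  · rintro ⟨h1, h2⟩
    dsimp only at h1 h2
    subst h1
    have e1 : p1 ((u.map fun x => ((some x, none) : Option X × Option Y)) ++
        w.map fun y => ((none, some y) : Option X × Option Y)) = u := by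
      simp [p1, List.filterMap_map]
    have e2 : p2 ((u.map fun x => ((some x, none) : Option X × Option Y)) ++
        w.map fun y => ((none, some y) : Option X × Option Y)) = w := by
      simp [p2, List.filterMap_map]
    refine ⟨_, ⟨?_, ?_⟩, e1, e2⟩
    · exact e1
    · show p2 _ ∈ M
      rw [e2]
      exact h2
  · rintro ⟨z, ⟨h1, h2⟩, rfl, rfl⟩
    exact ⟨h1, h2⟩

theorem LVmem_count {A : Type} [DecidableEq A] (a : ℕ → A) (t : ℕ → ℕ) (b : A) (n : ℕ) :
    (blk a t n).count b = ∑ j ∈ Finset.range n, if a j = b then t j else 0 := by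
  induction n with
  | zero => simp [blk, expand]
  | succ n ih =>
    rw [Finset.sum_range_succ, ← ih]
    simp only [blk, expand, List.count_append, rep_singleton, List.count_replicate]
    simp

theorem LVmem_ltr (k : ℕ) [NeZero k] {i j : ℕ} (hi : i < k) (hj : j < k)
    (h : ltr k i = ltr k j) : i = j := by
  have := congrArg Fin.val h
  simpa [ltr, Fin.ofNat, Nat.mod_eq_of_lt hi, Nat.mod_eq_of_lt hj] using this

theorem LVmem_inj (k : ℕ) [NeZero k] (t t' : ℕ → ℕ) (h : blk (ltr k) t k = blk (ltr k) t' k) :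
    ∀ i < k, t i = t' i := by
  intro i hi
  have h1 := congrArg (List.count (ltr k i)) h
  rw [LVmem_count, LVmem_count] at h1
  have h2 : ∀ s : ℕ → ℕ, (∑ j ∈ Finset.range k, if ltr k j = ltr k i then s j else 0) = s i := by
    intro s
    rw [Finset.sum_eq_single i]
    · simp
    · intro j hj hji
      rw [if_neg]
      intro h
      exact hji (LVmem_ltr k (Finset.mem_range.1 hj) hi h)
    · intro h
      exact absurd (Finset.mem_range.2 hi) h
  rwa [h2, h2] at h1

/-- the loops of the transducer for one coordinate -/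
def LVmem_V (k : ℕ) [NeZero k] (d : ℕ → ℤ) (s i : ℕ) : List (Option (Fin 2) × Option (Fin k)) :=
  (none, some (ltr k i)) ::
    List.replicate (d i).natAbs ((some (if i < s then 0 else 1), none))

theorem LVmem_p2V (k : ℕ) [NeZero k] (d : ℕ → ℤ) (s : ℕ) (t : ℕ → ℕ) (n : ℕ) :
    p2 (expand (fun _ => []) (LVmem_V k d s) t n) = blk (ltr k) t n := by
  rw [p2_expand]
  have h1 : ∀ i, p2 (LVmem_V k d s i) = [ltr k i] := by
    intro i
    simp [p2, LVmem_V, List.filterMap_replicate]
  simp only [h1]
  rfl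

theorem LVmem_p1V (k : ℕ) [NeZero k] (d : ℕ → ℤ) (s : ℕ) (t : ℕ → ℕ) (n : ℕ) :
    p1 (expand (fun _ => []) (LVmem_V k d s) t n) =
      List.replicate (∑ i ∈ Finset.range n, if i < s then t i * (d i).natAbs else 0) 0 ++
      List.replicate (∑ i ∈ Finset.range n, if i < s then 0 else t i * (d i).natAbs) 1 := by
  have h1 : ∀ i, p1 (LVmem_V k d s i) = rep [if i < s then (0 : Fin 2) else 1] (d i).natAbs := by
    intro i
    simp only [p1, LVmem_V]
    rw [List.filterMap_cons_none rfl, rep_singleton]
    generalize (d i).natAbs = N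
    induction N with
    | zero => rfl
    | succ N ih => simp [List.replicate_succ]
  induction n with
  | zero => simp [expand, p1]
  | succ n ih =>
    rw [Finset.sum_range_succ, Finset.sum_range_succ]
    have hrr : ∀ (a : Fin 2) (d t : ℕ), rep (rep [a] d) t = List.replicate (t * d) a := by
      intro a d t
      rw [rep_rep, rep_singleton, Nat.mul_comm]
    have hnil : p1 ([] : List (Option (Fin 2) × Option (Fin k))) = [] := rfl
    simp only [expand, p1_append, ih, p1_rep, h1, hrr, hnil, List.append_nil]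
    by_cases hn : n < s
    · have h0 : (∑ i ∈ Finset.range n, if i < s then 0 else t i * (d i).natAbs) = 0 := by
        apply Finset.sum_eq_zero
        intro i hi
        rw [if_pos]
        have := Finset.mem_range.1 hi
        omega
      rw [h0, if_pos hn, if_pos hn, if_pos hn]
      rw [List.replicate_add, Nat.add_zero, List.replicate_zero, List.append_nil, List.append_nil]
    · rw [if_neg hn, if_neg hn, if_neg hn]
      rw [List.replicate_add (m := ∑ i ∈ Finset.range n, if i < s then 0 else t i * (d i).natAbs),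
        Nat.add_zero, List.append_assoc]

theorem LVmem_pn (k : ℕ) (c : ℕ → ℕ → ℤ) (x s : ℕ) (t : ℕ → ℕ)
    (h1 : ∀ i < s, i < k → 0 ≤ c i x) (h2 : ∀ i, s ≤ i → i < k → c i x ≤ 0) :
    comb k c t x =
      ((∑ i ∈ Finset.range k, if i < s then t i * (c i x).natAbs else 0 : ℕ) : ℤ) -
      ((∑ i ∈ Finset.range k, if i < s then 0 else t i * (c i x).natAbs : ℕ) : ℤ) := by
  rw [Nat.cast_sum, Nat.cast_sum, ← Finset.sum_sub_distrib, comb]
  apply Finset.sum_congr rfl
  intro i hi
  have hik := Finset.mem_range.1 hi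
  by_cases his : i < s
  · rw [if_pos his, if_pos his]
    push_cast
    rw [abs_of_nonneg (h1 i his hik)]
    simp
  · rw [if_neg his, if_neg his]
    push_cast
    rw [abs_of_nonpos (h2 i (by omega) hik)]
    simp

theorem LVmem_Sne (P N : ℕ) : (List.replicate P (0 : Fin 2) ++ List.replicate N 1) ∈ Sne ↔ P ≠ N := by
  constructor
  · rintro ⟨m, n, hmn, h⟩
    have h1 := congrArg (List.count 0) h
    have h2 := congrArg (List.count 1) h
    simp [List.count_append, List.count_replicate] at h1 h2
    omega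
  · intro h
    exact ⟨P, N, h, rfl⟩

theorem LV_mem (e k : ℕ) [NeZero k] (c : ℕ → ℕ → ℤ)
    (rows : ∀ x < e, ∃ s, (∀ i < s, i < k → 0 ≤ c i x) ∧ (∀ i, s ≤ i → i < k → c i x ≤ 0)) :
    (⟨k, LV e k c⟩ : Σ n : ℕ, Language (Fin n)) ∈ T Sne := by
  have hB : Language.IsRegular (T := Fin k) {w | ∃ t : ℕ → ℕ, w = blk (ltr k) t k} :=
    regular_expand (fun _ => []) (fun i => [ltr k i]) k
  have key : ∀ e' ≤ e, ∃ τ : Set (List (Fin 2) × List (Fin k)), IsRational τ ∧
      ∀ w, w ∈ im τ Sne ↔ (¬ ∃ t : ℕ → ℕ, w = blk (ltr k) t k) ∨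
        ∃ x < e', ∃ t, w = blk (ltr k) t k ∧ comb k c t x ≠ 0 := by
    intro e'
    induction e' with
    | zero =>
      intro _
      refine ⟨_, LVmem_prod [0] hB.compl, ?_⟩
      intro w
      constructor
      · rintro ⟨u, hu, h1, h2⟩
        exact Or.inl h2
      · rintro (h | ⟨x, hx, _⟩)
        · exact ⟨[0], ⟨1, 0, by omega, rfl⟩, rfl, h⟩
        · exact absurd hx (by omega)
    | succ e' ih =>
      intro he
      obtain ⟨τ, hτ, hw⟩ := ih (by omega)
      obtain ⟨s, hs1, hs2⟩ := rows e' (by omega)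
      have hR : IsRational {p : List (Fin 2) × List (Fin k) | ∃ t : ℕ → ℕ,
          p.1 = p1 (expand (fun _ => []) (LVmem_V k (fun i => c i e') s) t k) ∧
          p.2 = p2 (expand (fun _ => []) (LVmem_V k (fun i => c i e') s) t k)} := by
        refine ⟨_, regular_expand (fun _ => []) (LVmem_V k (fun i => c i e') s) k, ?_⟩
        intro u w
        constructor
        · rintro ⟨t, h1, h2⟩
          exact ⟨_, ⟨t, rfl⟩, h1.symm, h2.symm⟩
        · rintro ⟨_, ⟨t, rfl⟩, h1, h2⟩
          exact ⟨t, h1.symm, h2.symm⟩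
      refine ⟨_, hτ.union hR, ?_⟩
      intro w
      have hx : ∀ t : ℕ → ℕ,
          (p1 (expand (fun _ => []) (LVmem_V k (fun i => c i e') s) t k) ∈ Sne ↔
            comb k c t e' ≠ 0) := by
        intro t
        rw [LVmem_p1V, LVmem_Sne, LVmem_pn k c e' s t hs1 hs2]
        constructor
        · intro h1 h2
          apply h1
          have := sub_eq_zero.1 h2
          exact_mod_cast this
        · intro h1 h2
          apply h1
          rw [h2]
          simp
      constructor
      · rintro ⟨u, hu, h | ⟨t, h1, h2⟩⟩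
        · rcases (hw w).1 ⟨u, hu, h⟩ with h | ⟨x, hx, h⟩
          · exact Or.inl h
          · exact Or.inr ⟨x, by omega, h⟩
        · right
          dsimp only at h1 h2
          refine ⟨e', by omega, t, ?_, ?_⟩
          · rw [h2, LVmem_p2V]
          · rw [h1] at hu
            exact (hx t).1 hu
      · rintro (h | ⟨x, hx', t, h1, h2⟩)
        · obtain ⟨u, hu, h⟩ := (hw w).2 (Or.inl h)
          exact ⟨u, hu, Or.inl h⟩
        · rcases Nat.lt_succ_iff_lt_or_eq.1 hx' with h3 | rfl
          · obtain ⟨u, hu, h⟩ := (hw w).2 (Or.inr ⟨x, h3, t, h1, h2⟩)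
            exact ⟨u, hu, Or.inl h⟩
          · exact ⟨_, (hx t).2 h2, Or.inr ⟨t, rfl, by dsimp only; rw [h1, LVmem_p2V]⟩⟩
  obtain ⟨τ, hτ, hw⟩ := key e le_rfl
  refine ⟨τ, hτ, ?_⟩
  dsimp only
  ext w
  rw [hw w]
  constructor
  · intro h
    by_cases hb : ∃ t : ℕ → ℕ, w = blk (ltr k) t k
    · right
      obtain ⟨t, ht⟩ := hb
      by_contra hcon
      apply h
      refine ⟨t, ht, ?_⟩
      intro x hx
      by_contra h3
      exact hcon ⟨x, hx, t, ht, h3⟩
    · exact Or.inl hb
  · rintro (h | ⟨x, hx, t, h1, h2⟩)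
    · rintro ⟨t, ht, _⟩
      exact h ⟨t, ht⟩
    · rintro ⟨t', h3, h4⟩
      apply h2
      rw [← h4 x hx]
      have h5 := LVmem_inj k t t' (h1.symm.trans h3)
      unfold comb
      apply Finset.sum_congr rfl
      intro i hi
      rw [h5 i (Finset.mem_range.1 hi)]

end RCone
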