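import Pool.Agent.RC.LB
import Pool.Agent.RC.Cols
import Pool.Agent.RC.LVmem
import Pool.Agent.RC.CaseL
import Pool.Agent.RC.CaseB
/-!
# Main: `T(Sne)` has no lower cover
-/
namespace RCone
open List

theorem main {m : ℕ} (B : Language (Fin m)) (hB : (B : Set (List (Fin m))).Nonempty)
    (h : T B ⊂ T Sne) :
    ∃ (n : ℕ) (C : Language (Fin n)), (C : Set (List (Fin n))).Nonempty ∧
      T B ⊂ T C ∧ T C ⊂ T Sne := by
  have hBmem : (⟨m, B⟩ : Σ n : ℕ, Language (Fin n)) ∈ T Sne := h.1 (mem_T_self B)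
  have hSB : (⟨2, Sne⟩ : Σ n : ℕ, Language (Fin n)) ∉ T B := fun hS => h.2 (T_subset hS)
  obtain ⟨τ, hτ, hBτ⟩ : ∃ τ : Set (List (Fin 2) × List (Fin m)), IsRational τ ∧ B = im τ Sne :=
    hBmem
  obtain ⟨N, hN⟩ := lower_bound hτ
  set e := N + 2 with he
  have hgood := goodCols e (by omega)
  have : NeZero (4 * e) := ⟨by omega⟩
  set L : Language (Fin (4 * e)) := LV e (4 * e) (cols e) with hL
  have hLmem : (⟨4 * e, L⟩ : Σ n : ℕ, Language (Fin n)) ∈ T Sne := LV_mem _ _ _ hgood.rows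
  refine ⟨m + 4 * e, join B L, ?_, ⟨T_subset (left_mem_join B L), ?_⟩,
    ⟨T_subset (join_mem (h.1 (mem_T_self B)) hLmem), ?_⟩⟩
  · obtain ⟨u, hu⟩ := hB
    exact ⟨u.map (Fin.castAdd (4 * e)), Or.inl ⟨u, hu, rfl⟩⟩
  · intro hle
    have hmem : (⟨4 * e, L⟩ : Σ n : ℕ, Language (Fin n)) ∈ T B := hle (right_mem_join B L)
    obtain ⟨ρ, hρ, hLρ⟩ : ∃ ρ : Set (List (Fin m) × List (Fin (4 * e))), IsRational ρ ∧
      L = im ρ B := hmem
    subst hBτ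
    obtain ⟨π, hπ, hS⟩ := hN e (4 * e) (2 * e) (cols e) (by omega) hgood ρ hρ hLρ.symm
    exact hSB ⟨π, hπ, hS.symm⟩
  · intro hle
    have hmem : (⟨2, Sne⟩ : Σ n : ℕ, Language (Fin n)) ∈ T (join B L) := hle (mem_T_self Sne)
    obtain ⟨σ, hσ, hSσ⟩ : ∃ σ : Set (List (Fin (m + 4 * e)) × List (Fin 2)), IsRational σ ∧
      Sne = im σ (join B L) := hmem
    obtain ⟨σ₁, σ₂, h₁, h₂, hj⟩ := im_join B L hσ
    have hsub1 : ∀ w ∈ im σ₁ B, w ∈ Sne := fun w hw => by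
      rw [hSσ]; exact (hj w).2 (Or.inl hw)
    have hsub2 : ∀ w ∈ im σ₂ L, w ∈ Sne := fun w hw => by
      rw [hSσ]; exact (hj w).2 (Or.inr hw)
    subst hBτ
    obtain ⟨K1, s1, hs1, hc1⟩ := caseB hτ h₁ hsub1
    obtain ⟨K2, s2, hs2, hc2⟩ := caseL e (4 * e) (cols e) hgood.nopar h₂ hsub2
    have hpos : 0 < s1 * s2 := Nat.mul_pos hs1 hs2
    have hw : (List.replicate (max K1 K2 + s1 * s2) (0 : Fin 2) ++
        List.replicate (max K1 K2) 1) ∈ Sne := ⟨_, _, by omega, rfl⟩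
    rw [hSσ] at hw
    rcases (hj _).1 hw with hw | hw
    · obtain ⟨π, hπ, hS⟩ := hc1 s2 (max K1 K2) hs2 (le_max_left _ _) hw
      exact hSB ⟨π, hπ, hS.symm⟩
    · refine hc2 s1 (max K1 K2) hs1 (le_max_right _ _) ?_
      rw [Nat.mul_comm s2 s1]; exact hw

end RCone
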