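import Pool.Agent.RC.RegA
import Pool.Agent.RC.RegB
/-!
# Reg: products of stars
-/
namespace RCone
open List

variable {α : Type}

theorem Reg_star (u : List α) (z : List α) :
    z ∈ KStar.kstar ({u} : Language α) ↔ ∃ t : ℕ, z = rep u t := by
  rw [Language.mem_kstar]
  constructor
  · rintro ⟨S, rfl, hS⟩
    refine ⟨S.length, ?_⟩
    have : S = List.replicate S.length u := by
      rw [List.eq_replicate_iff]
      exact ⟨rfl, fun b hb => hS b hb⟩
    rw [rep, ← this]
  · rintro ⟨t, rfl⟩
    refine ⟨List.replicate t u, rfl, ?_⟩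
    intro y hy
    exact List.eq_of_mem_replicate hy

theorem Reg_expand_congr (X Y : ℕ → List α) (m m' : ℕ → ℕ) (n : ℕ) (h : ∀ i < n, m i = m' i) :
    expand X Y m n = expand X Y m' n := by
  induction n with
  | zero => rfl
  | succ n ih =>
    rw [expand, expand, ih (fun i hi => h i (Nat.lt_succ_of_lt hi)), h n (Nat.lt_succ_self n)]

/-- all the words `X 0 (Y 0)^{t 0} X 1 ⋯`: product of stars, induction on `n` -/
theorem regular_expand (X Y : ℕ → List α) (n : ℕ) :
    Language.IsRegular (T := α) {z | ∃ t : ℕ → ℕ, z = expand X Y t n} := by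
  induction n with
  | zero =>
    have : ({z | ∃ t : ℕ → ℕ, z = expand X Y t 0} : Language α) = {X 0} := by
      ext z
      constructor
      · rintro ⟨t, rfl⟩
        exact rfl
      · intro h
        have hz : z = X 0 := h
        exact ⟨fun _ => 0, hz⟩
    rw [this]
    exact regular_singleton _
  | succ n ih =>
    let L0 : Language α := {z | ∃ t : ℕ → ℕ, z = expand X Y t n}
    have : ({z | ∃ t : ℕ → ℕ, z = expand X Y t (n + 1)} : Language α) =
        L0 * (KStar.kstar ({Y n} : Language α)) * ({X (n + 1)} : Language α) := by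
      refine Set.ext fun z => ⟨?_, ?_⟩
      · rintro ⟨t, rfl⟩
        refine Language.mem_mul.2 ⟨expand X Y t n ++ rep (Y n) (t n), ?_, X (n + 1), rfl, rfl⟩
        exact Language.mem_mul.2
          ⟨expand X Y t n, ⟨t, rfl⟩, rep (Y n) (t n), (Reg_star _ _).2 ⟨_, rfl⟩, rfl⟩
      · intro h
        obtain ⟨a, ha, b, hb, rfl⟩ := Language.mem_mul.1 h
        obtain ⟨a, ⟨t, rfl⟩, c, hc, rfl⟩ := Language.mem_mul.1 ha
        obtain ⟨s, rfl⟩ := (Reg_star _ _).1 hc
        have hb : b = X (n + 1) := hb
        subst hb
        refine ⟨fun i => if i = n then s else t i, ?_⟩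
        rw [expand]
        have e1 : expand X Y (fun i => if i = n then s else t i) n = expand X Y t n := by
          apply Reg_expand_congr
          intro i hi
          simp [hi.ne]
        rw [e1]; simp
    rw [this]
    exact regular_mul (regular_mul ih (regular_kstar (regular_singleton _))) (regular_singleton _)

end RCone
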