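import Pool.Agent.RC.Words
/-!
# RegA: regular languages are closed under product and star
-/
namespace RCone
open List

variable {α : Type}

theorem regular_mul {L₁ L₂ : Language α} (h₁ : L₁.IsRegular) (h₂ : L₂.IsRegular) :
    (L₁ * L₂).IsRegular := by
  classical
  obtain ⟨σ₁, _, M₁, rfl⟩ := h₁
  obtain ⟨σ₂, _, M₂, rfl⟩ := h₂
  let cl : σ₁ → Set (σ₁ ⊕ σ₂) := fun s => {Sum.inl s} ∪ {u | s ∈ M₁.accept ∧ u = Sum.inr M₂.start}
  let N : NFA α (σ₁ ⊕ σ₂) := ⟨fun u a => match u with
    | Sum.inl s => cl (M₁.step s a)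
    | Sum.inr t => {Sum.inr (M₂.step t a)}, cl M₁.start, {u | ∃ t ∈ M₂.accept, u = Sum.inr t}⟩
  have key1 : ∀ (w : List α) (t : σ₂), N.evalFrom {Sum.inr t} w = {Sum.inr (M₂.evalFrom t w)} := by
    intro w
    induction w with
    | nil => intro t; simp
    | cons a w ih =>
      intro t
      rw [NFA.evalFrom_cons, NFA.stepSet_singleton]
      exact ih _
  have key2 : ∀ (w : List α) (s : σ₁) (u : σ₁ ⊕ σ₂), u ∈ N.evalFrom (cl s) w ↔
      u = Sum.inl (M₁.evalFrom s w) ∨ ∃ x y, w = x ++ y ∧ M₁.evalFrom s x ∈ M₁.accept ∧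
        u = Sum.inr (M₂.evalFrom M₂.start y) := by
    intro w
    induction w with
    | nil =>
      intro s u
      simp [cl]
    | cons a w ih =>
      intro s u
      have hst : N.stepSet (cl s) a = cl (M₁.step s a) ∪ {u | s ∈ M₁.accept ∧ u = Sum.inr (M₂.step M₂.start a)} := by
        ext v
        rw [NFA.mem_stepSet]
        constructor
        · rintro ⟨t, ht | ⟨ht, rfl⟩, hv⟩
          · rw [Set.mem_singleton_iff] at ht
            subst ht
            exact Or.inl hv
          · exact Or.inr ⟨ht, hv⟩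
        · rintro (hv | ⟨hs, rfl⟩)
          · exact ⟨Sum.inl s, Or.inl rfl, hv⟩
          · exact ⟨Sum.inr M₂.start, Or.inr ⟨hs, rfl⟩, rfl⟩
      rw [NFA.evalFrom_cons, hst, NFA.evalFrom_union]
      have h2 : u ∈ N.evalFrom {u | s ∈ M₁.accept ∧ u = Sum.inr (M₂.step M₂.start a)} w ↔
          s ∈ M₁.accept ∧ u = Sum.inr (M₂.evalFrom M₂.start (a :: w)) := by
        by_cases hs : s ∈ M₁.accept
        · have : ({u | s ∈ M₁.accept ∧ u = Sum.inr (M₂.step M₂.start a)} : Set (σ₁ ⊕ σ₂)) =
              {Sum.inr (M₂.step M₂.start a)} := by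
            ext v; simp [hs]
          rw [this, key1]
          simp [hs]
        · have : ({u | s ∈ M₁.accept ∧ u = Sum.inr (M₂.step M₂.start a)} : Set (σ₁ ⊕ σ₂)) = ∅ := by
            ext v; simp [hs]
          rw [this, NFA.mem_evalFrom_iff_exists]
          simp [hs]
      rw [Set.mem_union, ih, h2]
      constructor
      · rintro ((rfl | ⟨x, y, rfl, hx, rfl⟩) | ⟨hs, rfl⟩)
        · exact Or.inl rfl
        · exact Or.inr ⟨a :: x, y, rfl, hx, rfl⟩
        · exact Or.inr ⟨[], a :: w, rfl, hs, rfl⟩
      · rintro (rfl | ⟨x, y, hxy, hx, rfl⟩)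
        · exact Or.inl (Or.inl rfl)
        · cases x with
          | nil =>
            rw [List.nil_append] at hxy
            subst hxy
            exact Or.inr ⟨hx, rfl⟩
          | cons b x =>
            rw [List.cons_append, List.cons.injEq] at hxy
            obtain ⟨rfl, rfl⟩ := hxy
            exact Or.inl (Or.inr ⟨x, y, rfl, hx, rfl⟩)
  refine ⟨Set (σ₁ ⊕ σ₂), inferInstance, N.toDFA, ?_⟩
  rw [NFA.toDFA_correct]
  ext w
  rw [NFA.mem_accepts, Language.mem_mul]
  constructor
  · rintro ⟨u, ⟨t, ht, rfl⟩, hu⟩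
    rcases (key2 _ _ _).1 hu with h | ⟨x, y, rfl, hx, hy⟩
    · exact absurd h (by simp)
    · rw [Sum.inr.injEq] at hy
      subst hy
      exact ⟨x, hx, y, ht, rfl⟩
  · rintro ⟨x, hx, y, hy, rfl⟩
    exact ⟨_, ⟨_, hy, rfl⟩, (key2 _ _ _).2 (Or.inr ⟨x, y, rfl, hx, rfl⟩)⟩

theorem regular_kstar {L : Language α} (h : L.IsRegular) : (KStar.kstar L).IsRegular := by
  classical
  obtain ⟨σ, _, M, rfl⟩ := h
  -- the new start state `none` is accepting
  let cl : σ → Set (Option σ) := fun s => {some s} ∪ {u | s ∈ M.accept ∧ u = some M.start}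
  let N : NFA α (Option σ) := ⟨fun u a => match u with
    | none => cl (M.step M.start a)
    | some s => cl (M.step s a), {none}, {u | u = none ∨ ∃ s ∈ M.accept, u = some s}⟩
  let acc : Option σ → List α → Prop := fun s w => ∃ u, (u = none ∨ ∃ s ∈ M.accept, u = some s) ∧
    u ∈ N.evalFrom {s} w
  have acc_cons : ∀ (s : σ) (a : α) (w : List α), acc (some s) (a :: w) ↔
      acc (some (M.step s a)) w ∨ (M.step s a ∈ M.accept ∧ acc (some M.start) w) := by
    intro s a w
    have h1 : N.evalFrom {some s} (a :: w) = N.evalFrom (cl (M.step s a)) w := by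
      rw [NFA.evalFrom_cons, NFA.stepSet_singleton]
    constructor
    · rintro ⟨u, hu, h⟩
      rw [h1, NFA.evalFrom_union, Set.mem_union] at h
      rcases h with h | h
      · exact Or.inl ⟨u, hu, h⟩
      · rw [NFA.mem_evalFrom_iff_exists] at h
        obtain ⟨t, ⟨ht, rfl⟩, h⟩ := h
        exact Or.inr ⟨ht, u, hu, h⟩
    · rintro (⟨u, hu, h⟩ | ⟨ha, u, hu, h⟩)
      · refine ⟨u, hu, ?_⟩
        rw [h1, NFA.evalFrom_union]
        exact Or.inl h
      · refine ⟨u, hu, ?_⟩
        rw [h1, NFA.evalFrom_union]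
        refine Or.inr ?_
        rw [NFA.mem_evalFrom_iff_exists]
        exact ⟨_, ⟨ha, rfl⟩, h⟩
  have acc_none : ∀ (a : α) (w : List α), acc none (a :: w) ↔ acc (some M.start) (a :: w) := by
    intro a w
    have h1 : N.evalFrom {none} (a :: w) = N.evalFrom {some M.start} (a :: w) := by
      rw [NFA.evalFrom_cons, NFA.stepSet_singleton, NFA.evalFrom_cons, NFA.stepSet_singleton]
    constructor <;> rintro ⟨u, hu, h⟩
    · exact ⟨u, hu, h1 ▸ h⟩
    · exact ⟨u, hu, h1 ▸ h⟩
  have acc_nil : ∀ s : σ, acc (some s) [] ↔ s ∈ M.accept := by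
    intro s
    constructor
    · rintro ⟨u, hu, h⟩
      rw [NFA.evalFrom_nil, Set.mem_singleton_iff] at h
      subst h
      rcases hu with h | ⟨t, ht, h⟩
      · exact absurd h (by simp)
      · rw [Option.some.injEq] at h
        exact h ▸ ht
    · intro hs
      exact ⟨some s, Or.inr ⟨s, hs, rfl⟩, rfl⟩
  have key : ∀ (w : List α) (s : σ), acc (some s) w ↔ M.evalFrom s w ∈ M.accept ∨
      ∃ x y, x ≠ [] ∧ w = x ++ y ∧ M.evalFrom s x ∈ M.accept ∧ acc (some M.start) y := by
    intro w
    induction w with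
    | nil =>
      intro s
      rw [acc_nil]
      constructor
      · intro h; exact Or.inl h
      · rintro (h | ⟨x, y, hx, hxy, _⟩)
        · exact h
        · exact absurd (List.append_eq_nil_iff.1 hxy.symm).1 hx
    | cons a w ih =>
      intro s
      rw [acc_cons, ih]
      constructor
      · rintro ((h | ⟨x, y, hx, rfl, h1, h2⟩) | ⟨h1, h2⟩)
        · exact Or.inl h
        · exact Or.inr ⟨a :: x, y, by simp, rfl, h1, h2⟩
        · exact Or.inr ⟨[a], w, by simp, rfl, h1, h2⟩
      · rintro (h | ⟨x, y, hx, hxy, h1, h2⟩)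
        · exact Or.inl (Or.inl h)
        · cases x with
          | nil => exact absurd rfl hx
          | cons b x =>
            rw [List.cons_append, List.cons.injEq] at hxy
            obtain ⟨rfl, rfl⟩ := hxy
            cases x with
            | nil => exact Or.inr ⟨h1, h2⟩
            | cons c x => exact Or.inl (Or.inr ⟨c :: x, y, by simp, rfl, h1, h2⟩)
  have fwd : ∀ (n : ℕ) (w : List α), w.length ≤ n → acc (some M.start) w → w ∈ KStar.kstar M.accepts := by
    intro n
    induction n with
    | zero =>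
      intro w hw _
      rw [List.length_eq_zero_iff.1 (Nat.le_zero.1 hw)]
      exact Language.nil_mem_kstar _
    | succ n ih =>
      intro w hw h
      rcases (key _ _).1 h with h | ⟨x, y, hx, rfl, h1, h2⟩
      · rw [Language.mem_kstar]
        refine ⟨[w], by simp, ?_⟩
        intro y hy
        rw [List.mem_singleton.1 hy]
        exact h
      · have := ih y (by
          rw [List.length_append] at hw
          have := List.length_pos_iff.2 hx
          omega) h2
        rw [Language.mem_kstar] at this ⊢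
        obtain ⟨S, rfl, hS⟩ := this
        refine ⟨x :: S, by simp, ?_⟩
        intro z hz
        rcases List.mem_cons.1 hz with rfl | hz
        · exact h1
        · exact hS z hz
  have bwd : ∀ (S : List (List α)), S ≠ [] → (∀ y ∈ S, y ∈ M.accepts ∧ y ≠ []) → acc (some M.start) S.flatten := by
    intro S
    induction S with
    | nil => intro h; exact absurd rfl h
    | cons z S ih =>
      intro _ hS
      obtain ⟨hz, hz'⟩ := hS z (by simp)
      by_cases hS' : S = []
      · subst hS'
        rw [key]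
        left
        rw [List.flatten_cons, List.flatten_nil, List.append_nil]
        exact hz
      · rw [key]
        right
        exact ⟨z, S.flatten, hz', by simp, hz, ih hS' (fun y hy => hS y (by simp [hy]))⟩
  refine ⟨Set (Option σ), inferInstance, N.toDFA, ?_⟩
  rw [NFA.toDFA_correct]
  ext w
  rw [NFA.mem_accepts]
  constructor
  · rintro ⟨u, hu, hu'⟩
    cases w with
    | nil => exact Language.nil_mem_kstar _
    | cons a w => exact fwd _ _ le_rfl ((acc_none _ _).1 ⟨u, hu, hu'⟩)
  · intro h
    rw [Language.mem_kstar_iff_exists_nonempty] at h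
    obtain ⟨S, rfl, hS⟩ := h
    cases S with
    | nil => exact ⟨none, Or.inl rfl, rfl⟩
    | cons z S =>
      have := bwd (z :: S) (by simp) hS
      obtain ⟨hz, hz'⟩ := hS z (by simp)
      cases z with
      | nil => exact absurd rfl hz'
      | cons a z =>
        have h2 := (acc_none a (z ++ S.flatten)).2 (by simpa using this)
        obtain ⟨u, hu, hu'⟩ := h2
        refine ⟨u, hu, ?_⟩
        rw [List.flatten_cons, List.cons_append]
        exact hu'

end RCone
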